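import Pool.Agent.H.MP_027d00_lc.mux.Light

/-!
# The lower bound for selection composed with an arbitrary inner function
-/

set_option autoImplicit false

open Finset

namespace Pool.Agent.H.MP_027d00_lc.Sel

open Pool.Agent.H.MP_027d00_lc.UComp

variable {Z : Type} [Fintype Z] [DecidableEq Z] {m n : ℕ}

theorem sum_ind_bit (z : Z) : 2 * ∑ p : Z → Bool, ind (p z) = 2 ^ Fintype.card Z := by
  have hcard : (Fintype.card (Z → Bool) : ℝ) = 2 ^ Fintype.card Z := by
    rw [Fintype.card_fun, Fintype.card_bool]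
    push_cast
    rfl
  have h1 : ∑ p : Z → Bool, ind (p z) = ∑ p : Z → Bool, ind (flip p z z) := by
    have hinv : Function.Involutive (fun p : Z → Bool => flip p z) := fun p => flip_flip p z
    exact (Equiv.sum_comp hinv.toPerm (fun p : Z → Bool => ind (p z))).symm
  have h2 : ∑ p : Z → Bool, ind (p z) + ∑ p : Z → Bool, ind (flip p z z) =
      2 ^ Fintype.card Z := by
    rw [← sum_add_distrib, ← hcard]
    have : ∀ p : Z → Bool, ind (p z) + ind (flip p z z) = 1 := by
      intro p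
      rw [flip_same]
      cases p z <;> simp [ind]
    rw [sum_congr rfl fun p _ => this p]
    simp
  linarith

theorem mass_root {μ : Bool → (Fin n → Bool) → ℝ} (h1 : ∀ b, ∑ x, μ b x = 1)
    {g : (Fin n → Bool) → Bool} (hs : ∀ b x, μ b x ≠ 0 → g x = b)
    {f : (Fin m → Bool) → Z} {a : Z → Fin m → Bool} (ha : ∀ z, f (a z) = z)
    {Φ : Fm (Z ⊕ (Fin m × Fin n))} (hΦ : Computes f g Φ) :
    2 * mass μ a Φ = Fintype.card Z * 2 ^ Fintype.card Z := by
  have h2 : ∀ z, ∑ X, W μ (a z) X * ∑ p, ind (sn Φ z p X) = 2 ^ Fintype.card Z / 2 := by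
    intro z
    have h3 : ∀ X : Mat m n, W μ (a z) X * ∑ p, ind (sn Φ z p X) =
        W μ (a z) X * (2 ^ Fintype.card Z / 2) := by
      intro X
      by_cases hX : W μ (a z) X = 0
      · rw [hX, zero_mul, zero_mul]
      · have h4 : f (rows g X) = z := by rw [W_supp hs hX, ha]
        have h5 : ∀ p : Z → Bool, sn Φ z p X = p z := by
          intro p
          simp only [sn, hΦ p X, hΦ (flip p z) X, h4, flip_same]
          cases p z <;> rfl
        simp only [h5]
        have := sum_ind_bit z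
        congr 1
        linarith
    rw [sum_congr rfl fun X _ => h3 X, ← sum_mul, W_sum h1, one_mul]
  unfold mass
  rw [sum_congr rfl fun z _ => h2 z, sum_const, card_univ, nsmul_eq_mul]
  ring

theorem exists_rows {g : (Fin n → Bool) → Bool} (hg : ∃ x y, g x ≠ g y) (a : Fin m → Bool) :
    ∃ X : Mat m n, rows g X = a := by
  have h : ∀ b : Bool, ∃ x, g x = b := by
    obtain ⟨x, y, hxy⟩ := hg
    intro b
    cases hx : g x <;> cases hy : g y <;> cases b <;> simp_all
    all_goals first | exact ⟨x, hx⟩ | exact ⟨y, hy⟩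
  choose x hx using h
  exact ⟨fun i => x (a i), funext fun i => hx (a i)⟩

theorem data_ge {g : (Fin n → Bool) → Bool} (hg : ∃ x y, g x ≠ g y)
    {f : (Fin m → Bool) → Z} (hf : Function.Surjective f) {Φ : Fm (Z ⊕ (Fin m × Fin n))}
    (hΦ : Computes f g Φ) : Fintype.card Z ≤ dataLeaves Φ := by
  refine le_trans ?_ (card_occ Φ)
  rw [← card_univ]
  refine card_le_card fun z _ => ?_
  by_contra hz
  obtain ⟨a, ha⟩ := hf z
  obtain ⟨X, hX⟩ := exists_rows hg a
  have h1 := eval_flip Φ hz (fun _ => true) X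
  rw [hΦ, hΦ, hX, ha, flip_same] at h1
  exact absurd h1 (by simp)

theorem exists_step {f : (Fin m → Bool) → Z} {b b' : Fin m → Bool} (h : f b ≠ f b') :
    ∃ (a : Fin m → Bool) (i : Fin m), f (Function.update a i true) ≠
      f (Function.update a i false) := by
  by_contra hne
  push Not at hne
  apply h
  have h1 : ∀ s : Finset (Fin m), f (s.piecewise b' b) = f b := by
    intro s
    induction s using Finset.induction_on with
    | empty => simp
    | insert i s hi ih =>
      rw [Finset.piecewise_insert, ← ih]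
      set c := s.piecewise b' b with hc
      have h2 : ∀ v w : Bool, f (Function.update c i v) = f (Function.update c i w) := by
        intro v w
        cases v <;> cases w
        · rfl
        · exact (hne c i).symm
        · exact hne c i
        · rfl
      have h3 := h2 (b' i) (c i)
      rwa [Function.update_eq_self] at h3
  have h2 := h1 univ
  rw [Finset.piecewise_univ] at h2
  exact h2.symm

theorem mat_ge {g : (Fin n → Bool) → Bool} (hg : ∃ x y, g x ≠ g y)
    {f : (Fin m → Bool) → Z} (hf : Function.Surjective f) (hZ : 2 ≤ Fintype.card Z)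
    {Φ : Fm (Z ⊕ (Fin m × Fin n))} (hΦ : Computes f g Φ) : fsize g ≤ matLeaves Φ := by
  obtain ⟨z, z', hz⟩ := Fintype.exists_pair_of_one_lt_card (by omega : 1 < Fintype.card Z)
  obtain ⟨b, rfl⟩ := hf z
  obtain ⟨b', rfl⟩ := hf z'
  obtain ⟨a, i, hai⟩ := exists_step hz
  obtain ⟨X, hX⟩ := exists_rows hg a
  set p : Z → Bool := fun z => decide (z = f (Function.update a i true)) with hp
  have h1 : Comp (matLeaves Φ) (fun x : Fin m × Fin n → Bool =>
      Φ.eval (inp p (fun i j => x (i, j)))) := by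
    refine ⟨fixData p Φ, (fixData_size p Φ).le, fun x => ?_⟩
    have := fixData_eval p Φ (fun i j => x (i, j))
    exact this
  have h2 := h1.subst (W := Fin n) (fun v => if v.1 = i then Sum.inl v.2 else Sum.inr (X v.1 v.2))
  have h3 : (fun y : Fin n → Bool => Φ.eval (inp p (fun i' j =>
      Sum.elim y id (if (i', j).1 = i then Sum.inl (i', j).2 else Sum.inr (X (i', j).1 (i', j).2)))))
      = g := by
    funext y
    rw [hΦ]
    have h4 : rows g (fun i' j => Sum.elim y id
        (if (i', j).1 = i then Sum.inl (i', j).2 else Sum.inr (X (i', j).1 (i', j).2))) =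
        Function.update a i (g y) := by
      funext i'
      by_cases hi : i' = i
      · subst hi
        simp [rows]
      · have h5 := congrFun hX i'
        simp only [rows] at h5
        simp [rows, hi, h5]
    rw [h4]
    cases hgy : g y
    · simp [hp, Ne.symm hai]
    · simp [hp]
  rw [h3] at h2
  exact fsize_le h2

/-- The absolute constant. -/
def cst : ℕ := 688128 * (288 ^ 6 * 216)

theorem main (f : (Fin m → Bool) → Z) (hf : Function.Surjective f) (hZ : 2 ≤ Fintype.card Z)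
    (g : (Fin n → Bool) → Bool) (hg : ∃ x y, g x ≠ g y) (Φ : Fm (Z ⊕ (Fin m × Fin n)))
    (hΦ : Computes f g Φ) :
    (Fintype.card Z) ^ 3 * fsize g ≤
      cst * (m ^ 7 * n ^ 3 * (matLeaves Φ * dataLeaves Φ ^ 2)) := by
  set R := Fintype.card Z with hR
  set L := fsize g with hL
  set sp := dataLeaves Φ with hsp
  set sX := matLeaves Φ with hsX
  have hspR : R ≤ sp := data_ge hg hf hΦ
  have hsXL : L ≤ sX := mat_ge hg hf hZ hΦ
  have hL1 : 1 ≤ L := fsize_pos hg
  have hn : 1 ≤ n := by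
    rcases Nat.eq_zero_or_pos n with h | h
    · exfalso
      subst h
      obtain ⟨x, y, hxy⟩ := hg
      exact hxy (congrArg g (funext fun i => i.elim0))
    · exact h
  have hm : 1 ≤ m := by
    rcases Nat.eq_zero_or_pos m with h | h
    · exfalso
      subst h
      obtain ⟨z, z', hz⟩ := Fintype.exists_pair_of_one_lt_card (by omega : 1 < Fintype.card Z)
      obtain ⟨b, rfl⟩ := hf z
      obtain ⟨b', rfl⟩ := hf z'
      exact hz (congrArg f (funext fun i => i.elim0))
    · exact h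
  have hmn : 1 ≤ m ^ 7 * n ^ 3 := Nat.one_le_iff_ne_zero.2 (by positivity)
  by_cases hcase : R ^ 2 < 256 * sp
  · -- many data leaves
    have h1 : R ^ 4 ≤ 65536 * sp ^ 2 := by
      have : (R ^ 2) ^ 2 ≤ (256 * sp) ^ 2 := Nat.pow_le_pow_left hcase.le 2
      calc R ^ 4 = (R ^ 2) ^ 2 := by ring
        _ ≤ (256 * sp) ^ 2 := this
        _ = 65536 * sp ^ 2 := by ring
    have h2 : R ^ 3 ≤ R ^ 4 := Nat.pow_le_pow_right (by omega) (by norm_num)
    calc R ^ 3 * L ≤ R ^ 4 * sX := Nat.mul_le_mul h2 hsXL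
      _ ≤ (65536 * sp ^ 2) * sX := Nat.mul_le_mul_right _ h1
      _ ≤ (cst * (m ^ 7 * n ^ 3)) * (sX * sp ^ 2) := by
          have h3 : 65536 ≤ cst * (m ^ 7 * n ^ 3) := by
            calc 65536 ≤ cst * 1 := by norm_num [cst]
              _ ≤ cst * (m ^ 7 * n ^ 3) := Nat.mul_le_mul_left _ hmn
          calc (65536 * sp ^ 2) * sX = 65536 * (sX * sp ^ 2) := by ring
            _ ≤ _ := Nat.mul_le_mul_right _ h3
      _ = _ := by ring
  · push Not at hcase
    have hR0 : 0 < R := by omega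
    -- the scale
    obtain ⟨t, ht1, ht2⟩ : ∃ t : ℕ, 55 * sp ≤ t * R ∧ t * R ≤ 56 * sp := by
      refine ⟨(55 * sp) / R + 1, ?_, ?_⟩
      · have := Nat.lt_div_mul_add (a := 55 * sp) hR0
        calc 55 * sp ≤ 55 * sp / R * R + R := this.le
          _ = (55 * sp / R + 1) * R := by ring
      · have := Nat.div_mul_le_self (55 * sp) R
        calc (55 * sp / R + 1) * R = 55 * sp / R * R + R := by ring
          _ ≤ 55 * sp + sp := Nat.add_le_add this hspR
          _ = 56 * sp := by ring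
    have htpos : 1 ≤ t := by
      rcases Nat.eq_zero_or_pos t with h | h
      · subst h
        omega
      · exact h
    set D := 4 * (288 ^ 6 * 216) * (m ^ 7 * n ^ 3 * t) with hD
    have hDpos : 0 < D := by positivity
    set w := (L - 1) / D with hw
    have hw1 : D * w ≤ L - 1 := Nat.mul_div_le _ _
    have hw2 : L ≤ (w + 1) * D := by
      have := Nat.lt_div_mul_add (a := L - 1) hDpos
      have h2 : L - 1 < w * D + D := this
      have : (w + 1) * D = w * D + D := by ring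
      omega
    have hmR : (1 : ℝ) ≤ m := by exact_mod_cast hm
    have htR : (1 : ℝ) ≤ t := by exact_mod_cast htpos
    have hτ : (0 : ℝ) < 1 / (2 * (m : ℝ) * t) := by positivity
    have hτ1 : 1 / (2 * (m : ℝ) * t) ≤ 1 := by
      rw [div_le_one (by positivity)]
      nlinarith
    have hg1 : ∃ x, g x = true := by
      obtain ⟨x, y, hxy⟩ := hg
      cases hx : g x
      · exact ⟨y, by cases hy : g y <;> simp_all⟩
      · exact ⟨x, hx⟩
    have hg0 : ∃ x, g x = false := by
      obtain ⟨x, y, hxy⟩ := hg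
      cases hx : g x
      · exact ⟨x, hx⟩
      · exact ⟨y, by cases hy : g y <;> simp_all⟩
    obtain ⟨μ, h0, h1, hs, hE⟩ := exists_hard (n := n) (m := m) (s := 2 * w) hm g hg1 hg0 hτ hτ1
      (by
        intro t' ht' hc
        have h2 : t' ≤ 2 * m * t := by
          have h3 : (t' : ℝ) ≤ 2 * m * t := by
            have := mul_le_mul_of_nonneg_right ht' (by positivity : (0 : ℝ) ≤ 2 * (m : ℝ) * t)
            have e : (t' : ℝ) * (1 / (2 * (m : ℝ) * t)) * (2 * (m : ℝ) * t) = t' := by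
              field_simp
            rw [e, one_mul] at this
            exact this
          exact_mod_cast h3
        have h3 := fsize_le hc
        have h4 : 288 ^ 6 * 216 * (m ^ 6 * n ^ 3 * (t' * (2 * w))) ≤ D * w := by
          calc 288 ^ 6 * 216 * (m ^ 6 * n ^ 3 * (t' * (2 * w)))
              ≤ 288 ^ 6 * 216 * (m ^ 6 * n ^ 3 * ((2 * m * t) * (2 * w))) := by gcongr
            _ = D * w := by rw [hD]; ring
        omega)
    -- the two estimates of the mass
    choose a ha using hf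
    have hroot := mass_root h1 hs (a := a) ha hΦ
    have hbound := mass_bound h0 h1 hm htpos hE a Φ
    have hN : (0 : ℝ) < 2 ^ R := by positivity
    have hRR : (2 : ℝ) ≤ R := by exact_mod_cast hZ
    have hA : (R : ℝ) / 2 ≤ 8 / 7 * (t : ℝ) *
        (6 * ((sp : ℝ) / ((t : ℝ) ^ 2 + 1) + (sX : ℝ) / (w + 1)) + 1) := by
      have e1 : 2 * mass μ a Φ = (R : ℝ) * 2 ^ R := hroot
      have e2 : mass μ a Φ ≤ 8 / 7 * (t : ℝ) * 2 ^ R *
        (6 * ((sp : ℝ) / ((t : ℝ) ^ 2 + 1) + (sX : ℝ) / (w + 1)) + 1) := hbound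
      have e3 : (R : ℝ) / 2 * 2 ^ R ≤ (8 / 7 * (t : ℝ) *
        (6 * ((sp : ℝ) / ((t : ℝ) ^ 2 + 1) + (sX : ℝ) / (w + 1)) + 1)) * 2 ^ R := by
        calc (R : ℝ) / 2 * 2 ^ R = mass μ a Φ := by linarith
          _ ≤ _ := e2
          _ = _ := by ring
      exact le_of_mul_le_mul_right e3 hN
    have hsp0 : (0 : ℝ) ≤ sp := Nat.cast_nonneg _
    have hsX0 : (0 : ℝ) ≤ sX := Nat.cast_nonneg _
    have ht0 : (0 : ℝ) < t := by linarith
    have hR0' : (0 : ℝ) < R := by linarith
    have ht1' : 55 * (sp : ℝ) ≤ t * R := by exact_mod_cast ht1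
    have ht2' : (t : ℝ) * R ≤ 56 * sp := by exact_mod_cast ht2
    have hcase' : 256 * (sp : ℝ) ≤ (R : ℝ) ^ 2 := by exact_mod_cast hcase
    -- 8/7 t ≤ R/4
    have hB1 : 8 / 7 * (t : ℝ) ≤ R / 4 := by
      have e1 : (t : ℝ) * R * 256 ≤ 56 * (R : ℝ) ^ 2 := by nlinarith
      have e2 : (t : ℝ) * 256 ≤ 56 * R := by
        have : ((t : ℝ) * 256) * R ≤ (56 * R) * R := by nlinarith
        exact le_of_mul_le_mul_right this hR0'
      linarith
    have hB2 : (t : ℝ) * ((sp : ℝ) / ((t : ℝ) ^ 2 + 1)) ≤ R / 55 := by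
      have e1 : (t : ℝ) * ((sp : ℝ) / ((t : ℝ) ^ 2 + 1)) ≤ (sp : ℝ) / t := by
        rw [mul_div_assoc', div_le_div_iff₀ (by positivity) ht0]
        nlinarith
      have e2 : (sp : ℝ) / t ≤ R / 55 := by
        rw [div_le_div_iff₀ ht0 (by norm_num)]
        nlinarith
      exact e1.trans e2
    have hB3 : (sX : ℝ) / (w + 1) ≤ sX * D / L := by
      have hL0 : (0 : ℝ) < L := by exact_mod_cast hL1
      have hw0 : (0 : ℝ) < (w : ℝ) + 1 := by positivity
      rw [div_le_div_iff₀ hw0 hL0]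
      have e : (L : ℝ) ≤ ((w : ℝ) + 1) * D := by exact_mod_cast hw2
      calc (sX : ℝ) * L ≤ sX * (((w : ℝ) + 1) * D) := mul_le_mul_of_nonneg_left e hsX0
        _ = sX * D * (w + 1) := by ring
    have hC : (R : ℝ) / 8 ≤ 48 / 7 * (t : ℝ) * (sX * D / L) := by
      have e1 : (R : ℝ) / 2 ≤ 48 / 7 * ((t : ℝ) * ((sp : ℝ) / ((t : ℝ) ^ 2 + 1))) +
          48 / 7 * (t : ℝ) * ((sX : ℝ) / (w + 1)) + 8 / 7 * (t : ℝ) := by
        refine hA.trans (le_of_eq (by ring))
      have e2 : 48 / 7 * (t : ℝ) * ((sX : ℝ) / (w + 1)) ≤ 48 / 7 * (t : ℝ) * (sX * D / L) :=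
        mul_le_mul_of_nonneg_left hB3 (by positivity)
      linarith
    have hL0 : (0 : ℝ) < L := by exact_mod_cast hL1
    have hD' : (D : ℝ) = 4 * (288 ^ 6 * 216) * ((m : ℝ) ^ 7 * (n : ℝ) ^ 3 * t) := by
      rw [hD]; push_cast; ring
    have hF : (R : ℝ) * L ≤ 1536 / 7 * (288 ^ 6 * 216) * ((m : ℝ) ^ 7 * (n : ℝ) ^ 3) *
        (sX * (t : ℝ) ^ 2) := by
      have e1 : (R : ℝ) / 8 * L ≤ 48 / 7 * (t : ℝ) * (sX * D / L) * L :=
        mul_le_mul_of_nonneg_right hC hL0.le
      have e2 : 48 / 7 * (t : ℝ) * (sX * D / L) * L = 48 / 7 * (t : ℝ) * (sX * D) := by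
        field_simp
      rw [e2, hD'] at e1
      nlinarith
    have hG : (R : ℝ) ^ 3 * L ≤ (cst : ℝ) * ((m : ℝ) ^ 7 * (n : ℝ) ^ 3 * (sX * (sp : ℝ) ^ 2)) := by
      have e1 : ((t : ℝ) * R) ^ 2 ≤ (56 * (sp : ℝ)) ^ 2 :=
        pow_le_pow_left₀ (by positivity) ht2' 2
      have e2 : (0 : ℝ) ≤ 1536 / 7 * (288 ^ 6 * 216) * ((m : ℝ) ^ 7 * (n : ℝ) ^ 3) * sX := by
        positivity
      calc (R : ℝ) ^ 3 * L = (R : ℝ) * L * (R : ℝ) ^ 2 := by ring
        _ ≤ (1536 / 7 * (288 ^ 6 * 216) * ((m : ℝ) ^ 7 * (n : ℝ) ^ 3) *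
            (sX * (t : ℝ) ^ 2)) * (R : ℝ) ^ 2 := mul_le_mul_of_nonneg_right hF (by positivity)
        _ = (1536 / 7 * (288 ^ 6 * 216) * ((m : ℝ) ^ 7 * (n : ℝ) ^ 3) * sX) *
            ((t : ℝ) * R) ^ 2 := by ring
        _ ≤ (1536 / 7 * (288 ^ 6 * 216) * ((m : ℝ) ^ 7 * (n : ℝ) ^ 3) * sX) *
            (56 * (sp : ℝ)) ^ 2 := mul_le_mul_of_nonneg_left e1 e2
        _ = (cst : ℝ) * ((m : ℝ) ^ 7 * (n : ℝ) ^ 3 * (sX * (sp : ℝ) ^ 2)) := by
            simp only [cst]
            push_cast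
            ring
    exact_mod_cast hG

end Pool.Agent.H.MP_027d00_lc.Sel
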