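import Pool.Agent.H.MP_027d00_lc.mux.Mix

/-!
# Shrinkage for blocks: one variable of every block stays alive
-/

set_option autoImplicit false

open Finset

namespace Pool.Agent.H.MP_027d00_lc.Sel

open Pool.Agent.H.MP_027d00_lc.UComp

/-- The weight of a leaf in a block with `r` alive variables. -/
noncomputable def wv : ℕ → ℝ
  | 0 => 1
  | 1 => 1
  | (n + 2) => wv (n + 1) * (((n : ℝ) + 1) / ((n : ℝ) + 5 / 2))

theorem wv_pos (n : ℕ) : 0 < wv n := by
  induction n with
  | zero => simp [wv]
  | succ n ih =>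
    cases n with
    | zero => simp [wv]
    | succ n =>
      rw [wv]
      exact mul_pos ih (by positivity)

theorem wv_succ_le (n : ℕ) : wv (n + 1) ≤ wv n := by
  cases n with
  | zero => simp [wv]
  | succ n =>
    rw [wv]
    refine mul_le_of_le_one_right (wv_pos _).le ?_
    rw [div_le_one (by positivity)]
    linarith

theorem wv_anti {a b : ℕ} (h : a ≤ b) : wv b ≤ wv a := antitone_nat_of_succ_le wv_succ_le h

theorem wv_bal (n : ℕ) : 2 * (((n + 2 : ℕ) : ℝ) - 1) * wv (n + 1) ≤
    (2 * ((n + 2 : ℕ) : ℝ) + 1) * wv (n + 2) := by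
  rw [wv]
  have h : (0 : ℝ) < (n : ℝ) + 5 / 2 := by positivity
  push_cast
  refine le_of_eq ?_
  field_simp
  ring

theorem wv_sq (n : ℕ) : wv (n + 1) ^ 2 * (((n : ℝ) + 1) ^ 2 * ((n : ℝ) + 2)) ≤ 2 := by
  induction n with
  | zero => simp [wv]
  | succ n ih =>
    rw [wv]
    have h : (0 : ℝ) < (n : ℝ) + 5 / 2 := by positivity
    have h0 : (0 : ℝ) ≤ n := Nat.cast_nonneg _
    have h1 : ((n : ℝ) + 1 + 1) ^ 2 * ((n : ℝ) + 1 + 2) ≤
        ((n : ℝ) + 5 / 2) ^ 2 * ((n : ℝ) + 2) := by nlinarith [mul_nonneg h0 h0]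
    push_cast
    calc (wv (n + 1) * (((n : ℝ) + 1) / ((n : ℝ) + 5 / 2))) ^ 2 *
          (((n : ℝ) + 1 + 1) ^ 2 * ((n : ℝ) + 1 + 2))
        ≤ (wv (n + 1) * (((n : ℝ) + 1) / ((n : ℝ) + 5 / 2))) ^ 2 *
          (((n : ℝ) + 5 / 2) ^ 2 * ((n : ℝ) + 2)) :=
          mul_le_mul_of_nonneg_left h1 (by positivity)
      _ = wv (n + 1) ^ 2 * (((n : ℝ) + 1) ^ 2 * ((n : ℝ) + 2)) := by
          field_simp
      _ ≤ 2 := ih

theorem eval_congr {V : Type} {A : Finset V} {y y' : V → Bool} (h : ∀ v ∈ A, y v = y' v) (F : Fm V)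
    (hF : ∀ v ∈ lv F, v ∈ A) : F.eval y = F.eval y' := by
  induction F with
  | const b => rfl
  | lit v b =>
    simp only [Fm.eval]
    rw [h v (hF v (by simp [lv]))]
  | and F G ihF ihG =>
    simp only [Fm.eval]
    rw [ihF fun v hv => hF v (by simp only [lv, Multiset.mem_add]; exact Or.inl hv),
      ihG fun v hv => hF v (by simp only [lv, Multiset.mem_add]; exact Or.inr hv)]
  | or F G ihF ihG =>
    simp only [Fm.eval]
    rw [ihF fun v hv => hF v (by simp only [lv, Multiset.mem_add]; exact Or.inl hv),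
      ihG fun v hv => hF v (by simp only [lv, Multiset.mem_add]; exact Or.inr hv)]

theorem Mx.eval_congr {Z V : Type} {A : Finset V} {y y' : V → Bool} (h : ∀ v ∈ A, y v = y' v)
    (T : Mx Z V) (hT : T.In A) (p : Z → Bool) : T.eval p y = T.eval p y' := by
  induction T with
  | pure F => exact Sel.eval_congr h F hT
  | dat z b => rfl
  | gate c F G ihF ihG => simp only [Mx.eval]; rw [ihF hT.1, ihG hT.2]

section

variable {Z V K : Type} [DecidableEq V] [DecidableEq K] (β : V → K)

/-- The alive variables of a block. -/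
def blk (A : Finset V) (k : K) : Finset V := A.filter (fun v => β v = k)

/-- The weights given by the sizes of the blocks. -/
noncomputable def wtA (A : Finset V) (v : V) : ℝ := wv (blk β A (β v)).card

theorem process [Fintype K] (N : ℕ) : ∀ A : Finset V, A.card = N →
    (∀ k, 1 ≤ (blk β A k).card) → ∀ T : Mx Z V, T.In A → ∃ A' : Finset V, A' ⊆ A ∧
      ∃ (T' : Mx Z V) (s : V → Bool), (∀ k, (blk β A' k).card = 1) ∧ T'.In A' ∧
      T'.data = T.data ∧ T'.pot (wtA β A') ≤ T.pot (wtA β A) ∧
      ∀ p y, T'.eval p y = T.eval p (fun v => if v ∈ A' then y v else s v) := by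
  induction N using Nat.strong_induction_on with
  | _ N IH =>
  intro A hA hk T hT
  by_cases hall : ∀ k, (blk β A k).card = 1
  · exact ⟨A, Subset.refl _, T, fun _ => false, hall, hT, rfl, le_rfl, fun p y =>
      Mx.eval_congr (fun v hv => by simp [hv]) T hT p⟩
  push Not at hall
  obtain ⟨k₁, hk₁⟩ := hall
  obtain ⟨k, -, hmax⟩ := exists_max_image (univ : Finset K) (fun k => (blk β A k).card)
    ⟨k₁, mem_univ _⟩
  have h2 : 2 ≤ (blk β A k).card := by
    have h3 := hmax k₁ (mem_univ _)
    have h4 := hk k₁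
    omega
  obtain ⟨n, hn⟩ : ∃ n, (blk β A k).card = n + 2 := ⟨_ - 2, (Nat.sub_add_cancel h2).symm⟩
  set wt' : V → ℝ := fun v => if β v = k then wv (n + 1) else wtA β A v with hwt'
  have hstp : Stp A (blk β A k) (wtA β A) wt' (wv (n + 2)) (wv (n + 1)) := by
    refine ⟨filter_subset _ _, ?_, ?_, ?_, (wv_pos _).le, ?_, ?_⟩
    · intro v hv hvk
      have : β v ≠ k := by
        intro h
        exact hvk (mem_filter.2 ⟨hv, h⟩)
      simp [hwt', this]
    · intro v hv
      have h3 : β v = k := (mem_filter.1 hv).2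
      simp only [wtA]
      rw [h3, hn]
    · intro v hv
      have h3 : β v = k := (mem_filter.1 hv).2
      simp [hwt', h3]
    · intro v hv
      by_cases h3 : β v = k
      · simp only [hwt', h3, if_true]
        exact wv_succ_le (n + 1)
      · simp only [hwt', h3, if_false, wtA]
        refine wv_anti ?_
        have := hmax (β v) (mem_univ _)
        rw [hn] at this
        exact this
    · rw [hn]
      exact wv_bal n
  have hne : (blk β A k).Nonempty := card_pos.1 (by omega)
  obtain ⟨x, hx, b, T₁, t1, t2, t3, t4⟩ := hstp.choice hne T hT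
  have hxA : x ∈ A := (mem_filter.1 hx).1
  have hxk : β x = k := (mem_filter.1 hx).2
  have hb1 : ∀ j, j ≠ k → blk β (A.erase x) j = blk β A j := by
    intro j hj
    ext v
    simp only [blk, mem_filter, mem_erase]
    constructor
    · rintro ⟨⟨_, h1⟩, h2⟩
      exact ⟨h1, h2⟩
    · rintro ⟨h1, h2⟩
      refine ⟨⟨?_, h1⟩, h2⟩
      rintro rfl
      exact hj (h2.symm.trans hxk)
  have hb2 : (blk β (A.erase x) k).card = n + 1 := by
    have : blk β (A.erase x) k = (blk β A k).erase x := by
      ext v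
      simp only [blk, mem_filter, mem_erase]
      tauto
    rw [this, card_erase_of_mem hx, hn]
    rfl
  have hwt : wtA β (A.erase x) = wt' := by
    funext v
    by_cases h3 : β v = k
    · simp only [hwt', h3, if_true, wtA, hb2]
    · simp only [hwt', h3, if_false, wtA, hb1 _ h3]
  have hk' : ∀ j, 1 ≤ (blk β (A.erase x) j).card := by
    intro j
    by_cases hj : j = k
    · subst hj
      omega
    · rw [hb1 j hj]
      exact hk j
  obtain ⟨A', hA', T', s, u1, u2, u3, u4, u5⟩ := IH (A.erase x).card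
    (by rw [card_erase_of_mem hxA, hA]; have := card_pos.2 ⟨x, hxA⟩; omega) (A.erase x) rfl hk' T₁ t2
  refine ⟨A', hA'.trans (erase_subset _ _), T', Function.update s x b, u1, u2, u3.trans t3, ?_, ?_⟩
  · refine u4.trans ?_
    rw [hwt]
    exact t4
  · intro p y
    rw [u5, t1]
    congr 1
    funext v
    by_cases hv : v = x
    · subst hv
      have : v ∉ A' := fun h => (mem_erase.1 (hA' h)).1 rfl
      simp [this]
    · simp [Function.update_of_ne hv]

end

end Pool.Agent.H.MP_027d00_lc.Sel
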