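import Pool.Agent.H.MP_027d00_lc.mux.Final
import Pool.Agent.H.MP_027d00_lc.unb.Count

/-!
# Functions without small formulas
-/

set_option autoImplicit false

open Finset

namespace Pool.Agent.H.MP_027d00_lc.Sel

open Pool.Agent.H.MP_027d00_lc.UComp

/-- Translation of the formulas. -/
def tr {V : Type} : Fm V → UnbTop.Fm V
  | .const b => .cst b
  | .lit v b => .lit v b
  | .and F G => .and (tr F) (tr G)
  | .or F G => .or (tr F) (tr G)

theorem tr_size {V : Type} (F : Fm V) : (tr F).size = F.size := by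
  induction F with
  | const b => rfl
  | lit v b => rfl
  | and F G ihF ihG => simp only [tr, UnbTop.Fm.size, Fm.size, ihF, ihG]
  | or F G ihF ihG => simp only [tr, UnbTop.Fm.size, Fm.size, ihF, ihG]

theorem tr_eval {V : Type} (F : Fm V) (x : V → Bool) : (tr F).eval x = F.eval x := by
  induction F with
  | const b => rfl
  | lit v b => rfl
  | and F G ihF ihG => simp only [tr, UnbTop.Fm.eval, Fm.eval, ihF, ihG]
  | or F G ihF ihG => simp only [tr, UnbTop.Fm.eval, Fm.eval, ihF, ihG]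

theorem exists_size {n : ℕ} (h : (Fin n → Bool) → Bool) :
    ∃ F : Fm (Fin n), F.size = fsize h ∧ ∀ x, F.eval x = h x := by
  have hne : {s : ℕ | ∃ F : Fm (Fin n), F.size = s ∧ ∀ x, F.eval x = h x}.Nonempty := by
    obtain ⟨F, _, hF⟩ := comp_all h
    exact ⟨F.size, F, rfl, hF⟩
  exact Nat.sInf_mem hne

/-- Some function of `r` variables has formula size at least `2 ^ r / (8 r)`. -/
theorem exists_hard_fun (r : ℕ) (hr : 1 ≤ r) :
    ∃ g : (Fin r → Bool) → Bool, (∃ x y, g x ≠ g y) ∧ 2 ^ r ≤ 8 * r * fsize g := by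
  classical
  by_contra hne
  push Not at hne
  have h1 : ∀ g : (Fin r → Bool) → Bool, 8 * r * fsize g < 2 ^ r := by
    intro g
    by_cases hg : ∃ x y, g x ≠ g y
    · obtain ⟨x, y, hxy⟩ := hg
      exact hne g ⟨x, y, hxy⟩
    · push Not at hg
      have : fsize g ≤ 0 := fsize_le ⟨.const (g fun _ => false), le_rfl, fun x => hg _ _⟩
      have h2 : 0 < 2 ^ r := by positivity
      have h3 : fsize g = 0 := by omega
      rw [h3]
      omega
  -- the number of functions
  have hbase : r + 1 ≤ 2 ^ r := Nat.succ_le_of_lt (Nat.lt_two_pow_self)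
  obtain ⟨s, hs⟩ : ∃ s, s = (2 ^ r - 1) / (8 * r) := ⟨_, rfl⟩
  have h2 : ∀ g : (Fin r → Bool) → Bool, fsize g ≤ s := by
    intro g
    rw [hs, Nat.le_div_iff_mul_le (by omega)]
    have := h1 g
    rw [mul_comm]
    omega
  have hs1 : s * (8 * r) ≤ 2 ^ r - 1 := by
    rw [hs]; exact Nat.div_mul_le_self _ _
  have hsle : s ≤ 2 ^ r := by
    have : s * 1 ≤ s * (8 * r) := Nat.mul_le_mul_left _ (by omega)
    omega
  have h3 := UnbTop.count_fm (V := Fin r) s (2 ^ (r + 2)) (by
    rw [Fintype.card_fin]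
    have : 2 ^ (r + 2) = 4 * 2 ^ r := by ring
    omega)
  have h4 : (Finset.univ : Finset ((Fin r → Bool) → Bool)).filter
      (fun f => ∃ F : UnbTop.Fm (Fin r), F.size ≤ s ∧ ∀ z, F.eval z = f z) = univ := by
    rw [filter_eq_self]
    intro g _
    obtain ⟨F, hF, he⟩ := exists_size g
    exact ⟨tr F, by rw [tr_size, hF]; exact h2 g, fun z => by rw [tr_eval, he]⟩
  rw [h4, card_univ, Fintype.card_fun, Fintype.card_fun, Fintype.card_bool, Fintype.card_fin,
    ← pow_mul] at h3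
  -- `(r + 2) * (2 s) + 2 ≤ 2 ^ r`
  have hs2 : s * 8 ≤ s * (8 * r) := Nat.mul_le_mul_left _ (by omega)
  have h5 : (r + 2) * (2 * s) ≤ 2 ^ r - 1 := by
    have : (r + 2) * (2 * s) = 2 * (s * r) + 4 * s := by ring
    have h6 : s * (8 * r) = 8 * (s * r) := by ring
    have h7 : s * 1 ≤ s * r := Nat.mul_le_mul_left _ hr
    omega
  have h6 : 2 ^ ((r + 2) * (2 * s)) ≤ 2 ^ (2 ^ r - 1) := Nat.pow_le_pow_right (by omega) h5
  rcases Nat.lt_or_ge r 2 with hr2 | hr2
  · have hr1 : r = 1 := by omega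
    subst hr1
    have hs0 : s = 0 := by
      rw [hs]; norm_num
    rw [hs0] at h3
    norm_num at h3
  · -- r ≥ 2
    have h7 : 4 ≤ 2 ^ r := by
      calc 4 = 2 ^ 2 := by norm_num
        _ ≤ 2 ^ r := Nat.pow_le_pow_right (by omega) hr2
    have h8 : 2 ^ (2 ^ r) = 2 * 2 ^ (2 ^ r - 1) := by
      rw [← pow_succ']
      congr 1
      omega
    have h9 : 2 ^ 3 ≤ 2 ^ (2 ^ r - 1) := Nat.pow_le_pow_right (by omega) (by omega)
    omega

end Pool.Agent.H.MP_027d00_lc.Sel
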