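import Pool.Agent.H.MP_027d00_lc.ucomp.Final

/-!
# Selection composed with an arbitrary inner function: definitions

Formulas over data variables `p_z` (`z : Z`) and the entries of a Boolean matrix `X`.
-/

set_option autoImplicit false

open Finset

namespace Pool.Agent.H.MP_027d00_lc.Sel

open Pool.Agent.H.MP_027d00_lc.UComp

/-- The number of leaves labelled by a data variable. -/
def dataLeaves {Z V : Type} : Fm (Z ⊕ V) → ℕ
  | .const _ => 0
  | .lit (.inl _) _ => 1
  | .lit (.inr _) _ => 0
  | .and F G => dataLeaves F + dataLeaves G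
  | .or F G => dataLeaves F + dataLeaves G

/-- The number of leaves labelled by a variable of the matrix. -/
def matLeaves {Z V : Type} : Fm (Z ⊕ V) → ℕ
  | .const _ => 0
  | .lit (.inl _) _ => 0
  | .lit (.inr _) _ => 1
  | .and F G => matLeaves F + matLeaves G
  | .or F G => matLeaves F + matLeaves G

/-- The input given by the data `p` and the matrix `X`. -/
def inp {Z : Type} {m n : ℕ} (p : Z → Bool) (X : Mat m n) : Z ⊕ (Fin m × Fin n) → Bool :=
  Sum.elim p (fun v => X v.1 v.2)

/-- `Φ` computes the selection function `(p, X) ↦ p_{f (g (X₁), ..., g (X_m))}`. -/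
def Computes {Z : Type} {m n : ℕ} (f : (Fin m → Bool) → Z) (g : (Fin n → Bool) → Bool)
    (Φ : Fm (Z ⊕ (Fin m × Fin n))) : Prop :=
  ∀ (p : Z → Bool) (X : Mat m n), Φ.eval (inp p X) = p (f (rows g X))

/-- Flip the data bit `z`. -/
def flip {Z : Type} [DecidableEq Z] (p : Z → Bool) (z : Z) : Z → Bool :=
  Function.update p z (!(p z))

theorem flip_same {Z : Type} [DecidableEq Z] (p : Z → Bool) (z : Z) : flip p z z = !(p z) := by
  simp [flip]

theorem flip_ne {Z : Type} [DecidableEq Z] (p : Z → Bool) {z y : Z} (h : y ≠ z) :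
    flip p z y = p y := by
  simp [flip, h]

theorem flip_flip {Z : Type} [DecidableEq Z] (p : Z → Bool) (z : Z) : flip (flip p z) z = p := by
  funext y
  by_cases h : y = z
  · subst h
    simp [flip_same]
  · simp [flip_ne _ h]

theorem size_eq {Z V : Type} (Φ : Fm (Z ⊕ V)) : Φ.size = dataLeaves Φ + matLeaves Φ := by
  induction Φ with
  | const b => rfl
  | lit v b => cases v <;> rfl
  | and F G ihF ihG => simp only [Fm.size, dataLeaves, matLeaves, ihF, ihG]; ring
  | or F G ihF ihG => simp only [Fm.size, dataLeaves, matLeaves, ihF, ihG]; ring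

/-- Fix the matrix. -/
def fixMat {Z V : Type} (x : V → Bool) : Fm (Z ⊕ V) → Fm Z :=
  substF (fun v => Sum.elim (fun z => Sum.inl z) (fun u => Sum.inr (x u)) v)

/-- Fix the data. -/
def fixData {Z V : Type} (p : Z → Bool) : Fm (Z ⊕ V) → Fm V :=
  substF (fun v => Sum.elim (fun z => Sum.inr (p z)) (fun u => Sum.inl u) v)

theorem fixMat_size {Z V : Type} (x : V → Bool) (Φ : Fm (Z ⊕ V)) :
    (fixMat x Φ).size = dataLeaves Φ := by
  induction Φ with
  | const b => rfl
  | lit v b => cases v <;> rfl
  | and F G ihF ihG =>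
    have := ihF; have := ihG
    simp only [fixMat] at *
    simp only [substF, Fm.size, dataLeaves, *]
  | or F G ihF ihG =>
    have := ihF; have := ihG
    simp only [fixMat] at *
    simp only [substF, Fm.size, dataLeaves, *]

theorem fixData_size {Z V : Type} (p : Z → Bool) (Φ : Fm (Z ⊕ V)) :
    (fixData p Φ).size = matLeaves Φ := by
  induction Φ with
  | const b => rfl
  | lit v b => cases v <;> rfl
  | and F G ihF ihG =>
    have := ihF; have := ihG
    simp only [fixData] at *
    simp only [substF, Fm.size, matLeaves, *]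
  | or F G ihF ihG =>
    have := ihF; have := ihG
    simp only [fixData] at *
    simp only [substF, Fm.size, matLeaves, *]

theorem fixMat_eval {Z : Type} {m n : ℕ} (X : Mat m n) (Φ : Fm (Z ⊕ (Fin m × Fin n)))
    (p : Z → Bool) : (fixMat (fun v => X v.1 v.2) Φ).eval p = Φ.eval (inp p X) := by
  rw [fixMat, substF_eval]
  congr 1
  funext v
  cases v <;> rfl

theorem fixData_eval {Z : Type} {m n : ℕ} (p : Z → Bool) (Φ : Fm (Z ⊕ (Fin m × Fin n)))
    (X : Mat m n) : (fixData p Φ).eval (fun v => X v.1 v.2) = Φ.eval (inp p X) := by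
  rw [fixData, substF_eval]
  congr 1
  funext v
  cases v <;> rfl

/-- The data variables that occur. -/
def occ {Z V : Type} [DecidableEq Z] : Fm (Z ⊕ V) → Finset Z
  | .const _ => ∅
  | .lit (.inl z) _ => {z}
  | .lit (.inr _) _ => ∅
  | .and F G => occ F ∪ occ G
  | .or F G => occ F ∪ occ G

theorem card_occ {Z V : Type} [DecidableEq Z] (Φ : Fm (Z ⊕ V)) : (occ Φ).card ≤ dataLeaves Φ := by
  induction Φ with
  | const b => simp [occ, dataLeaves]
  | lit v b => cases v <;> simp [occ, dataLeaves]
  | and F G ihF ihG =>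
    simp only [occ, dataLeaves]
    exact (card_union_le _ _).trans (Nat.add_le_add ihF ihG)
  | or F G ihF ihG =>
    simp only [occ, dataLeaves]
    exact (card_union_le _ _).trans (Nat.add_le_add ihF ihG)

theorem eval_flip {Z : Type} [DecidableEq Z] {m n : ℕ} (Φ : Fm (Z ⊕ (Fin m × Fin n))) {z : Z}
    (hz : z ∉ occ Φ) (p : Z → Bool) (X : Mat m n) :
    Φ.eval (inp (flip p z) X) = Φ.eval (inp p X) := by
  induction Φ with
  | const b => rfl
  | lit v b =>
    cases v with
    | inl y =>
      simp only [occ, mem_singleton] at hz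
      simp only [Fm.eval, inp, Sum.elim_inl]
      rw [flip_ne p (Ne.symm hz)]
    | inr v => rfl
  | and F G ihF ihG =>
    simp only [occ, mem_union, not_or] at hz
    simp only [Fm.eval, ihF hz.1, ihG hz.2]
  | or F G ihF ihG =>
    simp only [occ, mem_union, not_or] at hz
    simp only [Fm.eval, ihF hz.1, ihG hz.2]

/-- The bit `z` is sensitive downwards at `(p, X)`: the value is `1` at `p` and `0` after the flip
of the data bit `z`. -/
def sn {Z : Type} [DecidableEq Z] {m n : ℕ} (Φ : Fm (Z ⊕ (Fin m × Fin n))) (z : Z) (p : Z → Bool)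
    (X : Mat m n) : Bool :=
  Φ.eval (inp p X) && !(Φ.eval (inp (flip p z) X))

theorem sn_comp {Z : Type} [DecidableEq Z] {m n w : ℕ} (Φ : Fm (Z ⊕ (Fin m × Fin n)))
    (hw : matLeaves Φ ≤ w) (z : Z) (p : Z → Bool) : CompM (2 * w) (fun X => sn Φ z p X) := by
  refine ⟨.and (fixData p Φ) (Comp.neg (fixData (flip p z) Φ)), ?_, ?_⟩
  · simp only [Fm.size, Comp.neg_size, fixData_size]
    omega
  · intro X
    simp only [Fm.eval, Comp.neg_eval, fixData_eval, sn]

end Pool.Agent.H.MP_027d00_lc.Sel
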