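import Pool.Agent.H.MP_027d00_lc.mux.Blk
import Pool.Agent.H.MP_027d00_lc.mux.Cnt

/-!
# The explicit function
-/

set_option autoImplicit false

open Finset

namespace Pool.Agent.H.MP_027d00_lc.Sel

open Pool.Agent.H.MP_027d00_lc.UComp

/-- The parity of the bits. -/
def par {M : ℕ} (y : Fin M → Bool) : Bool := decide (Odd (univ.filter (fun k => y k = true)).card)

theorem par_eq {M : ℕ} (y : Fin M → Bool) : par y = (∑ k, (y k).toNat).bodd := by
  have h1 : (univ.filter (fun k => y k = true)).card = ∑ k, (y k).toNat := by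
    rw [card_filter]
    refine sum_congr rfl fun k _ => ?_
    cases y k <;> rfl
  unfold par
  rw [h1]
  generalize ∑ k, (y k).toNat = n
  have h2 := Nat.mod_two_of_bodd n
  cases hb : n.bodd
  · rw [hb] at h2
    rw [decide_eq_false_iff_not, Nat.odd_iff, h2]
    simp
  · rw [hb] at h2
    rw [decide_eq_true_iff, Nat.odd_iff, h2]
    simp

/-- The explicit function with blocks of `M` bits: `p_z` for the value `z_i` of the table `t` at
the parities of the blocks `(i, j)`. -/
def hval {r M : ℕ} (p t : (Fin r → Bool) → Bool) (y : (Fin r × Fin r) × Fin M → Bool) : Bool :=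
  p (fun i => t (fun j => par (fun k => y ((i, j), k))))

/-- The number of leaves labelled by bits `y`. -/
def yLeaves {Z T V : Type} : Fm (Z ⊕ (T ⊕ V)) → ℕ
  | .const _ => 0
  | .lit (.inl _) _ => 0
  | .lit (.inr (.inl _)) _ => 0
  | .lit (.inr (.inr _)) _ => 1
  | .and F G => yLeaves F + yLeaves G
  | .or F G => yLeaves F + yLeaves G

/-- Fix the table. -/
def fixT {Z T V : Type} (t : T → Bool) : Fm (Z ⊕ (T ⊕ V)) → Fm (Z ⊕ V) :=
  substF (fun v => Sum.elim (fun z => Sum.inl (Sum.inl z))
    (fun u => Sum.elim (fun x => Sum.inr (t x)) (fun w => Sum.inl (Sum.inr w)) u) v)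

theorem fixT_data {Z T V : Type} (t : T → Bool) (Φ : Fm (Z ⊕ (T ⊕ V))) :
    dataLeaves (fixT t Φ) = dataLeaves Φ := by
  induction Φ with
  | const b => rfl
  | lit v b =>
    rcases v with z | x | w
    · rfl
    · rfl
    · rfl
  | and F G ihF ihG =>
    have := ihF; have := ihG
    simp only [fixT] at *
    simp only [substF, dataLeaves, *]
  | or F G ihF ihG =>
    have := ihF; have := ihG
    simp only [fixT] at *
    simp only [substF, dataLeaves, *]

theorem fixT_mat {Z T V : Type} (t : T → Bool) (Φ : Fm (Z ⊕ (T ⊕ V))) :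
    matLeaves (fixT t Φ) = yLeaves Φ := by
  induction Φ with
  | const b => rfl
  | lit v b =>
    rcases v with z | x | w
    · rfl
    · rfl
    · rfl
  | and F G ihF ihG =>
    have := ihF; have := ihG
    simp only [fixT] at *
    simp only [substF, matLeaves, yLeaves, *]
  | or F G ihF ihG =>
    have := ihF; have := ihG
    simp only [fixT] at *
    simp only [substF, matLeaves, yLeaves, *]

theorem fixT_eval {Z T V : Type} (t : T → Bool) (Φ : Fm (Z ⊕ (T ⊕ V))) (p : Z → Bool)
    (y : V → Bool) : (fixT t Φ).eval (Sum.elim p y) = Φ.eval (Sum.elim p (Sum.elim t y)) := by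
  rw [fixT, substF_eval]
  congr 1
  funext v
  rcases v with z | x | w <;> rfl

/-- Replace the variables by literals of the matrix or constants. -/
def cv {Z V K : Type} (q : V → (K × Bool) ⊕ Bool) : Fm V → Fm (Z ⊕ K)
  | .const b => .const b
  | .lit v b => match q v with
    | .inl (k, c) => .lit (.inr k) (b ^^ c)
    | .inr d => .const (d == b)
  | .and F G => .and (cv q F) (cv q G)
  | .or F G => .or (cv q F) (cv q G)

theorem cv_data {Z V K : Type} (q : V → (K × Bool) ⊕ Bool) (F : Fm V) :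
    dataLeaves (cv (Z := Z) q F) = 0 := by
  induction F with
  | const b => rfl
  | lit v b =>
    simp only [cv]
    rcases q v with ⟨k, c⟩ | d <;> rfl
  | and F G ihF ihG => simp only [cv, dataLeaves, ihF, ihG]
  | or F G ihF ihG => simp only [cv, dataLeaves, ihF, ihG]

theorem cv_mat {Z V K : Type} (q : V → (K × Bool) ⊕ Bool) (F : Fm V) :
    matLeaves (cv (Z := Z) q F) ≤ F.size := by
  induction F with
  | const b => simp [cv, matLeaves]
  | lit v b =>
    simp only [cv]
    rcases q v with ⟨k, c⟩ | d <;> simp [matLeaves, Fm.size]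
  | and F G ihF ihG => simp only [cv, matLeaves, Fm.size]; omega
  | or F G ihF ihG => simp only [cv, matLeaves, Fm.size]; omega

/-- The assignment of the variables. -/
def asg {V K : Type} (q : V → (K × Bool) ⊕ Bool) (X : K → Bool) (v : V) : Bool :=
  match q v with
  | .inl (k, c) => X k ^^ c
  | .inr d => d

theorem cv_eval {Z V K : Type} (q : V → (K × Bool) ⊕ Bool) (p : Z → Bool) (X : K → Bool)
    (F : Fm V) : (cv q F).eval (Sum.elim p X) = F.eval (asg q X) := by
  induction F with
  | const b => rfl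
  | lit v b =>
    simp only [cv, Fm.eval, asg]
    rcases q v with ⟨k, c⟩ | d
    · simp only [Fm.eval, Sum.elim_inr]
      cases X k <;> cases b <;> cases c <;> rfl
    · simp only [Fm.eval]
  | and F G ihF ihG => simp only [cv, Fm.eval, ihF, ihG]
  | or F G ihF ihG => simp only [cv, Fm.eval, ihF, ihG]

/-- Back to formulas. -/
def Mx.toFm {Z V K : Type} (q : V → (K × Bool) ⊕ Bool) : Mx Z V → Fm (Z ⊕ K)
  | .pure F => cv q F
  | .dat z b => .lit (.inl z) b
  | .gate true F G => .and (F.toFm q) (G.toFm q)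
  | .gate false F G => .or (F.toFm q) (G.toFm q)

theorem Mx.toFm_data {Z V K : Type} (q : V → (K × Bool) ⊕ Bool) (T : Mx Z V) :
    dataLeaves (T.toFm q) = T.data := by
  induction T with
  | pure F => exact cv_data q F
  | dat z b => rfl
  | gate c F G ihF ihG => cases c <;> simp only [toFm, dataLeaves, data, ihF, ihG]

theorem Mx.toFm_mat {Z V K : Type} (q : V → (K × Bool) ⊕ Bool) (T : Mx Z V) :
    matLeaves (T.toFm q) ≤ T.tot := by
  induction T with
  | pure F => exact cv_mat q F
  | dat z b => simp [toFm, matLeaves]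
  | gate c F G ihF ihG => cases c <;> simp only [toFm, matLeaves, tot] <;> omega

theorem Mx.toFm_eval {Z V K : Type} (q : V → (K × Bool) ⊕ Bool) (p : Z → Bool) (X : K → Bool)
    (T : Mx Z V) : (T.toFm q).eval (Sum.elim p X) = T.eval p (asg q X) := by
  induction T with
  | pure F => exact cv_eval q p X F
  | dat z b => rfl
  | gate c F G ihF ihG => cases c <;> simp only [toFm, Fm.eval, eval, ihF, ihG, gt] <;> rfl

theorem par_update {M : ℕ} (s : Fin M → Bool) (k₀ : Fin M) (a : Bool) (y : Fin M → Bool)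
    (h1 : ∀ k, k ≠ k₀ → y k = s k)
    (h2 : y k₀ = (a ^^ (∑ k ∈ univ.erase k₀, (s k).toNat).bodd)) : par y = a := by
  rw [par_eq, ← add_sum_erase _ _ (mem_univ k₀), Nat.bodd_add]
  have h3 : ∑ k ∈ univ.erase k₀, (y k).toNat = ∑ k ∈ univ.erase k₀, (s k).toNat :=
    sum_congr rfl fun k hk => by rw [h1 k (mem_erase.1 hk).1]
  rw [h3, h2]
  generalize (∑ k ∈ univ.erase k₀, (s k).toNat).bodd = b
  cases a <;> cases b <;> rfl

theorem expl_red {r M : ℕ} (g : (Fin r → Bool) → Bool)
    (Φ : Fm ((Fin r → Bool) ⊕ ((Fin r → Bool) ⊕ ((Fin r × Fin r) × Fin M))))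
    (hΦ : ∀ p t y, Φ.eval (Sum.elim p (Sum.elim t y)) = hval p t y) (hM : 1 ≤ M)
    (hd : 1 ≤ dataLeaves Φ) :
    ∃ Ψ : Fm ((Fin r → Bool) ⊕ (Fin r × Fin r)), Computes id g Ψ ∧
      dataLeaves Ψ = dataLeaves Φ ∧
      (matLeaves Ψ : ℝ) ≤ 2 * wv M * yLeaves Φ + 4 * dataLeaves Φ := by
  classical
  set Φ₁ := fixT g Φ with hΦ₁
  obtain ⟨T, t1, t2, t3, t4⟩ := exists_mx Φ₁ (by rw [hΦ₁, fixT_data]; exact hd) _ _ PC.id
  have hblk : ∀ k : Fin r × Fin r,
      (blk (Prod.fst : (Fin r × Fin r) × Fin M → Fin r × Fin r) univ k).card = M := by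
    intro k
    have : blk (Prod.fst : (Fin r × Fin r) × Fin M → Fin r × Fin r) univ k =
        univ.image (fun j : Fin M => (k, j)) := by
      ext ⟨a, b⟩
      simp only [blk, mem_filter, mem_univ, true_and, mem_image, Prod.mk.injEq]
      constructor
      · rintro rfl
        exact ⟨b, rfl, rfl⟩
      · rintro ⟨c, h, _⟩
        exact h.symm
    rw [this, card_image_of_injective _ (fun a b h => (Prod.mk.injEq _ _ _ _ ▸ h).2)]
    simp
  obtain ⟨A', -, T', s, u1, u2, u3, u4, u5⟩ := process
    (Prod.fst : (Fin r × Fin r) × Fin M → Fin r × Fin r) _ univ rfl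
    (fun k => by rw [hblk]; exact hM) T T.In_univ
  -- the substitution
  set q : (Fin r × Fin r) × Fin M → ((Fin r × Fin r) × Bool) ⊕ Bool := fun v =>
    if v ∈ A' then Sum.inl (v.1, (∑ k ∈ univ.erase v.2, (s (v.1, k)).toNat).bodd)
    else Sum.inr (s v) with hq
  have hpar : ∀ (X : Fin r × Fin r → Bool) (κ : Fin r × Fin r),
      par (fun k => (fun v => if v ∈ A' then asg q X v else s v) (κ, k)) = X κ := by
    intro X κ
    obtain ⟨v₀, hv₀⟩ := card_eq_one.1 (u1 κ)
    have hmem : v₀ ∈ blk (Prod.fst : (Fin r × Fin r) × Fin M → Fin r × Fin r) A' κ := by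
      rw [hv₀]; exact mem_singleton_self _
    obtain ⟨hvA, hvk⟩ := mem_filter.1 hmem
    have e0 : v₀ = (κ, v₀.2) := by rw [← hvk]
    refine par_update (fun k => s (κ, k)) v₀.2 (X κ) _ ?_ ?_
    · intro k hk
      have hnot : (κ, k) ∉ A' := by
        intro hin
        have : ((κ, k) : (Fin r × Fin r) × Fin M) ∈ ({v₀} : Finset _) := by
          rw [← hv₀]
          exact mem_filter.2 ⟨hin, rfl⟩
        rw [mem_singleton] at this
        exact hk (by rw [← this])
      simp only [hnot, if_false]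
    · have hin : (κ, v₀.2) ∈ A' := by rw [← e0]; exact hvA
      simp only [hin, if_true, asg, hq]
  refine ⟨T'.toFm q, ?_, ?_, ?_⟩
  · intro p X
    rw [inp, Mx.toFm_eval, u5, t4]
    have e1 : ∀ y : (Fin r × Fin r) × Fin M → Bool, ev2 p y Φ₁ = hval p g y := by
      intro y
      rw [ev2, hΦ₁, fixT_eval, hΦ]
    rw [e1]
    simp only [Fm.eval, Bool.false_or, Bool.true_and, hval, id]
    congr 1
    funext i
    simp only [rows]
    congr 1
    funext j
    exact hpar (fun v => X v.1 v.2) (i, j)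
  · rw [Mx.toFm_data, u3, t1, hΦ₁, fixT_data]
  · have h1 : (matLeaves (T'.toFm q) : ℝ) ≤ T'.tot := by exact_mod_cast T'.toFm_mat q
    have h2 : (T'.tot : ℝ) ≤ T'.pot (wtA (Prod.fst : (Fin r × Fin r) × Fin M → Fin r × Fin r) A') :=
      T'.tot_le (fun v => by
        simp only [wtA]
        rw [u1]
        rfl)
    have h3 : T.pot (wtA (Prod.fst : (Fin r × Fin r) × Fin M → Fin r × Fin r) univ) ≤
        wv M * T.tot + T.parts := T.pot_le (wv_pos M).le (fun v => by
          simp only [wtA]
          rw [hblk])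
    have h4 : (T.tot : ℝ) ≤ 2 * yLeaves Φ := by
      have : T.tot ≤ 2 * yLeaves Φ := by
        rw [hΦ₁, fixT_mat] at t2
        omega
      exact_mod_cast this
    have h5 : (T.parts : ℝ) ≤ 4 * dataLeaves Φ := by
      have : T.parts ≤ 4 * dataLeaves Φ := by
        rw [hΦ₁, fixT_data] at t3
        omega
      exact_mod_cast this
    have h6 := mul_le_mul_of_nonneg_left h4 (wv_pos M).le
    linarith

end Pool.Agent.H.MP_027d00_lc.Sel
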