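import Pool.Agent.H.MP_027d00_lc.mux.Defs

/-!
# Khrapchenko's bound for the number of sensitive edges
-/

set_option autoImplicit false

open Finset

namespace Pool.Agent.H.MP_027d00_lc.Sel

open Pool.Agent.H.MP_027d00_lc.UComp

variable {Z : Type} [Fintype Z] [DecidableEq Z]

/-- The number of edges from `A` to `B`. -/
def edges (A B : Finset (Z → Bool)) : ℕ :=
  ∑ p ∈ A, (univ.filter (fun z => flip p z ∈ B)).card

theorem edges_union_left {A A' : Finset (Z → Bool)} (h : Disjoint A A') (B : Finset (Z → Bool)) :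
    edges (A ∪ A') B = edges A B + edges A' B := by
  unfold edges
  exact sum_union h

theorem edges_union_right (A : Finset (Z → Bool)) {B B' : Finset (Z → Bool)}
    (h : Disjoint B B') : edges A (B ∪ B') = edges A B + edges A B' := by
  unfold edges
  rw [← sum_add_distrib]
  refine sum_congr rfl fun p _ => ?_
  rw [← card_union_of_disjoint]
  · congr 1
    ext z
    simp
  · rw [disjoint_left]
    intro z hz hz'
    simp only [mem_filter, mem_univ, true_and] at hz hz'
    exact disjoint_left.1 h hz hz'

theorem edges_lit (A B : Finset (Z → Bool)) (z : Z) (h : ∀ p ∈ A, ∀ q ∈ B, p z ≠ q z) :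
    edges A B ≤ A.card ∧ edges A B ≤ B.card := by
  have h1 : ∀ p ∈ A, univ.filter (fun y => flip p y ∈ B) ⊆ {z} := by
    intro p hp y hy
    simp only [mem_filter, mem_univ, true_and] at hy
    rw [mem_singleton]
    by_contra hne
    exact h p hp _ hy (flip_ne p (Ne.symm hne)).symm
  constructor
  · unfold edges
    calc ∑ p ∈ A, (univ.filter (fun y => flip p y ∈ B)).card ≤ ∑ _p ∈ A, 1 :=
          sum_le_sum fun p hp => (card_le_card (h1 p hp)).trans (by simp)
      _ = A.card := by simp
  · have h2 : edges A B = (A.filter (fun p => flip p z ∈ B)).card := by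
      unfold edges
      rw [card_filter]
      refine sum_congr rfl fun p hp => ?_
      by_cases hz : flip p z ∈ B
      · rw [if_pos hz]
        have : univ.filter (fun y => flip p y ∈ B) = {z} := by
          refine subset_antisymm (h1 p hp) ?_
          intro y hy
          rw [mem_singleton] at hy
          subst hy
          simp [hz]
        rw [this, card_singleton]
      · rw [if_neg hz, card_eq_zero, filter_eq_empty_iff]
        intro y _ hy
        have := h1 p hp (by simp [hy] : y ∈ univ.filter (fun y => flip p y ∈ B))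
        rw [mem_singleton] at this
        subst this
        exact hz hy
    rw [h2]
    refine card_le_card_of_injOn (fun p => flip p z) ?_ ?_
    · intro p hp
      simp only [coe_filter, Set.mem_setOf_eq] at hp
      exact hp.2
    · intro p _ q _ hpq
      simp only at hpq
      rw [← flip_flip p z, hpq, flip_flip]

theorem cauchy {e₀ e₁ s₀ s₁ a₀ a₁ b : ℝ} (h0 : 0 ≤ e₀) (h1 : 0 ≤ e₁) (hs0 : 0 ≤ s₀)
    (hs1 : 0 ≤ s₁) (ha0 : 0 ≤ a₀) (ha1 : 0 ≤ a₁) (hb : 0 ≤ b) (h : e₀ ^ 2 ≤ s₀ * (a₀ * b))
    (h' : e₁ ^ 2 ≤ s₁ * (a₁ * b)) : (e₀ + e₁) ^ 2 ≤ (s₀ + s₁) * ((a₀ + a₁) * b) := by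
  have hu : 0 ≤ s₀ * (a₁ * b) := by positivity
  have hv : 0 ≤ s₁ * (a₀ * b) := by positivity
  have h2 : (2 * (e₀ * e₁)) ^ 2 ≤ (s₀ * (a₁ * b) + s₁ * (a₀ * b)) ^ 2 := by
    have h3 : (e₀ * e₁) ^ 2 ≤ (s₀ * (a₁ * b)) * (s₁ * (a₀ * b)) := by
      calc (e₀ * e₁) ^ 2 = e₀ ^ 2 * e₁ ^ 2 := by ring
        _ ≤ (s₀ * (a₀ * b)) * (s₁ * (a₁ * b)) := mul_le_mul h h' (sq_nonneg _) (by positivity)
        _ = (s₀ * (a₁ * b)) * (s₁ * (a₀ * b)) := by ring
    nlinarith [sq_nonneg (s₀ * (a₁ * b) - s₁ * (a₀ * b))]
  have h4 : 2 * (e₀ * e₁) ≤ s₀ * (a₁ * b) + s₁ * (a₀ * b) :=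
    le_of_sq_le_sq₀ h2 (by positivity)
  nlinarith
where
  le_of_sq_le_sq₀ {x y : ℝ} (h : x ^ 2 ≤ y ^ 2) (hy : 0 ≤ y) : x ≤ y :=
    (abs_le_of_sq_le_sq' h hy).2

/-- Khrapchenko's inequality. -/
theorem khr (ψ : Fm Z) : ∀ A B : Finset (Z → Bool), (∀ p ∈ A, ψ.eval p = true) →
    (∀ q ∈ B, ψ.eval q = false) →
    (edges A B : ℝ) ^ 2 ≤ (ψ.size : ℝ) * ((A.card : ℝ) * (B.card : ℝ)) := by
  induction ψ with
  | const b =>
    intro A B hA hB
    have : edges A B = 0 := by
      unfold edges
      refine sum_eq_zero fun p hp => ?_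
      rw [card_eq_zero, filter_eq_empty_iff]
      intro z _ hz
      have h1 := hA p hp
      have h2 := hB _ hz
      simp only [Fm.eval] at h1 h2
      rw [h1] at h2
      exact absurd h2 (by simp)
    rw [this]
    simp [Fm.size]
  | lit z b =>
    intro A B hA hB
    have h1 := edges_lit A B z (by
      intro p hp q hq h
      have h1 := hA p hp
      have h2 := hB q hq
      simp only [Fm.eval, beq_iff_eq] at h1 h2
      rw [h] at h1
      rw [h1] at h2
      simp at h2)
    have e1 : (edges A B : ℝ) ≤ A.card := by exact_mod_cast h1.1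
    have e2 : (edges A B : ℝ) ≤ B.card := by exact_mod_cast h1.2
    have e0 : (0 : ℝ) ≤ edges A B := Nat.cast_nonneg _
    simp only [Fm.size, Nat.cast_one, one_mul, sq]
    exact mul_le_mul e1 e2 e0 (Nat.cast_nonneg _)
  | and F G ihF ihG =>
    intro A B hA hB
    set B₀ := B.filter (fun q => F.eval q = false) with hB₀
    set B₁ := B.filter (fun q => ¬ F.eval q = false) with hB₁
    have hBu : B = B₀ ∪ B₁ := (filter_union_filter_not_eq _ B).symm
    have hd : Disjoint B₀ B₁ := disjoint_filter_filter_not _ _ _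
    have h0 := ihF A B₀ (fun p hp => by
      have := hA p hp
      simp only [Fm.eval, Bool.and_eq_true] at this
      exact this.1) (fun q hq => by
      simp only [hB₀, mem_filter] at hq
      exact hq.2)
    have h1 := ihG A B₁ (fun p hp => by
      have := hA p hp
      simp only [Fm.eval, Bool.and_eq_true] at this
      exact this.2) (fun q hq => by
      simp only [hB₁, mem_filter] at hq
      have := hB q hq.1
      simp only [Fm.eval, Bool.and_eq_false_iff] at this
      exact this.resolve_left hq.2)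
    have hc : (B.card : ℝ) = B₀.card + B₁.card := by
      have : B.card = B₀.card + B₁.card := by
        conv_lhs => rw [hBu]
        exact card_union_of_disjoint hd
      exact_mod_cast this
    have he : (edges A B : ℝ) = edges A B₀ + edges A B₁ := by
      have : edges A B = edges A B₀ + edges A B₁ := by
        conv_lhs => rw [hBu]
        exact edges_union_right A hd
      exact_mod_cast this
    rw [he, hc]
    simp only [Fm.size, Nat.cast_add]
    have := cauchy (Nat.cast_nonneg (edges A B₀)) (Nat.cast_nonneg (edges A B₁))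
      (Nat.cast_nonneg F.size) (Nat.cast_nonneg G.size) (Nat.cast_nonneg B₀.card)
      (Nat.cast_nonneg B₁.card) (Nat.cast_nonneg A.card) (h0.trans (le_of_eq (by ring)))
      (h1.trans (le_of_eq (by ring)))
    exact this.trans (le_of_eq (by ring))
  | or F G ihF ihG =>
    intro A B hA hB
    set A₀ := A.filter (fun q => F.eval q = true) with hA₀
    set A₁ := A.filter (fun q => ¬ F.eval q = true) with hA₁
    have hAu : A = A₀ ∪ A₁ := (filter_union_filter_not_eq _ A).symm
    have hd : Disjoint A₀ A₁ := disjoint_filter_filter_not _ _ _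
    have h0 := ihF A₀ B (fun q hq => by
      simp only [hA₀, mem_filter] at hq
      exact hq.2) (fun p hp => by
      have := hB p hp
      simp only [Fm.eval, Bool.or_eq_false_iff] at this
      exact this.1)
    have h1 := ihG A₁ B (fun q hq => by
      simp only [hA₁, mem_filter] at hq
      have := hA q hq.1
      simp only [Fm.eval, Bool.or_eq_true] at this
      exact this.resolve_left hq.2) (fun p hp => by
      have := hB p hp
      simp only [Fm.eval, Bool.or_eq_false_iff] at this
      exact this.2)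
    have hc : (A.card : ℝ) = A₀.card + A₁.card := by
      have : A.card = A₀.card + A₁.card := by
        conv_lhs => rw [hAu]
        exact card_union_of_disjoint hd
      exact_mod_cast this
    have he : (edges A B : ℝ) = edges A₀ B + edges A₁ B := by
      have : edges A B = edges A₀ B + edges A₁ B := by
        conv_lhs => rw [hAu]
        exact edges_union_left hd B
      exact_mod_cast this
    rw [he, hc]
    simp only [Fm.size, Nat.cast_add]
    exact cauchy (Nat.cast_nonneg (edges A₀ B)) (Nat.cast_nonneg (edges A₁ B))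
      (Nat.cast_nonneg F.size) (Nat.cast_nonneg G.size) (Nat.cast_nonneg A₀.card)
      (Nat.cast_nonneg A₁.card) (Nat.cast_nonneg B.card) h0 h1

/-- The number of pairs `(p, z)` such that the value is `1` at `p` and `0` after flipping `z`. -/
theorem khr_total (ψ : Fm Z) {t : ℕ} (ht : ψ.size ≤ t ^ 2) :
    2 * ∑ z, ∑ p, ind (ψ.eval p && !(ψ.eval (flip p z))) ≤ (t : ℝ) * 2 ^ Fintype.card Z := by
  classical
  set A : Finset (Z → Bool) := univ.filter (fun p => ψ.eval p = true) with hA
  set B : Finset (Z → Bool) := univ.filter (fun p => ¬ ψ.eval p = true) with hB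
  have h1 := khr ψ A B (fun p hp => by simpa [hA] using hp) (fun q hq => by
    simp only [hB, mem_filter, mem_univ, true_and, Bool.not_eq_true] at hq
    exact hq)
  have hc : (A.card : ℝ) + B.card = 2 ^ Fintype.card Z := by
    have h2 : A.card + B.card = Fintype.card (Z → Bool) := by
      rw [hA, hB, card_filter_add_card_filter_not, card_univ]
    rw [Fintype.card_fun, Fintype.card_bool] at h2
    exact_mod_cast h2
  have he : ∑ z, ∑ p, ind (ψ.eval p && !(ψ.eval (flip p z))) = (edges A B : ℝ) := by
    rw [sum_comm]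
    unfold edges
    push_cast
    rw [hA, sum_filter]
    refine sum_congr rfl fun p _ => ?_
    by_cases hp : ψ.eval p = true
    · rw [if_pos hp, card_filter]
      push_cast
      refine sum_congr rfl fun z _ => ?_
      simp only [hp, hB, mem_filter, mem_univ, true_and]
      cases ψ.eval (flip p z) <;> simp [ind]
    · rw [if_neg hp]
      refine sum_eq_zero fun z _ => ?_
      simp only [Bool.not_eq_true] at hp
      simp [hp, ind]
  rw [he]
  have h3 : (ψ.size : ℝ) ≤ (t : ℝ) ^ 2 := by exact_mod_cast ht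
  have h4 : (2 * (edges A B : ℝ)) ^ 2 ≤ ((t : ℝ) * 2 ^ Fintype.card Z) ^ 2 := by
    have ha : (0 : ℝ) ≤ A.card := Nat.cast_nonneg _
    have hb : (0 : ℝ) ≤ B.card := Nat.cast_nonneg _
    calc (2 * (edges A B : ℝ)) ^ 2 = 4 * (edges A B : ℝ) ^ 2 := by ring
      _ ≤ 4 * ((ψ.size : ℝ) * ((A.card : ℝ) * (B.card : ℝ))) := by linarith
      _ = (ψ.size : ℝ) * (4 * ((A.card : ℝ) * (B.card : ℝ))) := by ring
      _ ≤ (t : ℝ) ^ 2 * ((A.card : ℝ) + B.card) ^ 2 := by
          refine mul_le_mul h3 ?_ (by positivity) (by positivity)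
          nlinarith [sq_nonneg ((A.card : ℝ) - B.card)]
      _ = ((t : ℝ) * 2 ^ Fintype.card Z) ^ 2 := by rw [hc]; ring
  exact (abs_le_of_sq_le_sq' h4 (by positivity)).2

end Pool.Agent.H.MP_027d00_lc.Sel
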