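import Pool.Agent.H.MP_027d00_lc.mux.Expl

/-!
# The lower bound for the explicit function
-/

set_option autoImplicit false

open Finset

namespace Pool.Agent.H.MP_027d00_lc.Sel

open Pool.Agent.H.MP_027d00_lc.UComp

theorem data_pos {r M : ℕ} (g : (Fin r → Bool) → Bool)
    (Φ : Fm ((Fin r → Bool) ⊕ ((Fin r → Bool) ⊕ ((Fin r × Fin r) × Fin M))))
    (hΦ : ∀ p t y, Φ.eval (Sum.elim p (Sum.elim t y)) = hval p t y) : 1 ≤ dataLeaves Φ := by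
  by_contra hne
  have h0 : dataLeaves (fixT g Φ) = 0 := by rw [fixT_data]; omega
  obtain ⟨F, _, hF⟩ := pure_of_data_zero _ h0
  have h1 := hF (fun _ => true) (fun _ => false)
  have h2 := hF (fun _ => false) (fun _ => false)
  rw [h1] at h2
  simp only [ev2, fixT_eval, hΦ, hval] at h2
  exact absurd h2 (by simp)

/-- The bound for blocks of any size. -/
theorem expl_main {r M : ℕ} (hr : 1 ≤ r) (hM : 1 ≤ M)
    (Φ : Fm ((Fin r → Bool) ⊕ ((Fin r → Bool) ⊕ ((Fin r × Fin r) × Fin M))))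
    (hΦ : ∀ p t y, Φ.eval (Sum.elim p (Sum.elim t y)) = hval p t y) :
    ((2 : ℝ) ^ r) ^ 4 ≤ 8 * cst * (r : ℝ) ^ 11 * ((dataLeaves Φ : ℝ) ^ 2 *
      (2 * wv M * yLeaves Φ + 4 * dataLeaves Φ)) := by
  obtain ⟨g, hg, hL⟩ := exists_hard_fun r hr
  obtain ⟨Ψ, h1, h2, h3⟩ := expl_red g Φ hΦ hM (data_pos g Φ hΦ)
  have hcard : Fintype.card (Fin r → Bool) = 2 ^ r := by
    rw [Fintype.card_fun, Fintype.card_bool, Fintype.card_fin]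
  have hZ : 2 ≤ Fintype.card (Fin r → Bool) := by
    rw [hcard]
    calc 2 = 2 ^ 1 := by norm_num
      _ ≤ 2 ^ r := Nat.pow_le_pow_right (by omega) hr
  have h4 := main id Function.surjective_id hZ g hg Ψ h1
  rw [hcard, h2] at h4
  have h5 : (2 ^ r) ^ 4 ≤ 8 * cst * r ^ 11 * (matLeaves Ψ * dataLeaves Φ ^ 2) := by
    calc (2 ^ r) ^ 4 = (2 ^ r) ^ 3 * 2 ^ r := by ring
      _ ≤ (2 ^ r) ^ 3 * (8 * r * fsize g) := Nat.mul_le_mul_left _ hL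
      _ = 8 * r * ((2 ^ r) ^ 3 * fsize g) := by ring
      _ ≤ 8 * r * (cst * (r ^ 7 * r ^ 3 * (matLeaves Ψ * dataLeaves Φ ^ 2))) :=
          Nat.mul_le_mul_left _ h4
      _ = _ := by ring
  have h6 : ((2 : ℝ) ^ r) ^ 4 ≤ 8 * cst * (r : ℝ) ^ 11 *
      ((matLeaves Ψ : ℝ) * (dataLeaves Φ : ℝ) ^ 2) := by exact_mod_cast h5
  refine h6.trans (mul_le_mul_of_nonneg_left ?_ (by positivity))
  rw [mul_comm]
  exact mul_le_mul_of_nonneg_left h3 (by positivity)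

theorem wv_le {M : ℕ} (hM : 1 ≤ M) : wv M * (M : ℝ) ^ (3 / 2 : ℝ) ≤ 2 := by
  obtain ⟨n, rfl⟩ : ∃ n, M = n + 1 := ⟨M - 1, by omega⟩
  have h1 := wv_sq n
  have h0 : (0 : ℝ) ≤ n := Nat.cast_nonneg _
  have h2 : (0 : ℝ) < ((n + 1 : ℕ) : ℝ) := by positivity
  have h3 : (wv (n + 1) * ((n + 1 : ℕ) : ℝ) ^ (3 / 2 : ℝ)) ^ 2 ≤ 2 ^ 2 := by
    rw [mul_pow]
    have e : (((n + 1 : ℕ) : ℝ) ^ (3 / 2 : ℝ)) ^ 2 = ((n + 1 : ℕ) : ℝ) ^ 3 := by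
      rw [← Real.rpow_natCast, ← Real.rpow_mul h2.le, ← Real.rpow_natCast]
      norm_num
    rw [e]
    have h4 : ((n + 1 : ℕ) : ℝ) ^ 3 ≤ ((n : ℝ) + 1) ^ 2 * ((n : ℝ) + 2) := by
      push_cast
      nlinarith [sq_nonneg ((n : ℝ) + 1)]
    have := mul_le_mul_of_nonneg_left h4 (sq_nonneg (wv (n + 1)))
    linarith
  exact (abs_le_of_sq_le_sq' h3 (by norm_num)).2

/-- The bound for blocks of any size. -/
theorem expl {r M : ℕ} (hr : 1 ≤ r) (hM : 1 ≤ M)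
    (Φ : Fm ((Fin r → Bool) ⊕ ((Fin r → Bool) ⊕ ((Fin r × Fin r) × Fin M))))
    (hΦ : ∀ p t y, Φ.eval (Sum.elim p (Sum.elim t y)) = hval p t y) :
    ((2 : ℝ) ^ r) ^ 4 * (M : ℝ) ^ (3 / 2 : ℝ) ≤ 32 * cst * (r : ℝ) ^ 11 *
      ((dataLeaves Φ : ℝ) ^ 2 * (yLeaves Φ + (M : ℝ) ^ (3 / 2 : ℝ) * dataLeaves Φ)) := by
  have h1 := expl_main hr hM Φ hΦ
  have h2 := wv_le hM
  have h3 : (0 : ℝ) ≤ (M : ℝ) ^ (3 / 2 : ℝ) := by positivity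
  have h4 := mul_le_mul_of_nonneg_right h1 h3
  refine h4.trans ?_
  have h5 : (2 * wv M * yLeaves Φ + 4 * dataLeaves Φ) * (M : ℝ) ^ (3 / 2 : ℝ) ≤
      4 * (yLeaves Φ + (M : ℝ) ^ (3 / 2 : ℝ) * dataLeaves Φ) := by
    have : (wv M * (M : ℝ) ^ (3 / 2 : ℝ)) * (yLeaves Φ : ℝ) ≤ 2 * yLeaves Φ :=
      mul_le_mul_of_nonneg_right h2 (Nat.cast_nonneg _)
    nlinarith
  calc 8 * (cst : ℝ) * (r : ℝ) ^ 11 * ((dataLeaves Φ : ℝ) ^ 2 *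
      (2 * wv M * yLeaves Φ + 4 * dataLeaves Φ)) * (M : ℝ) ^ (3 / 2 : ℝ)
      = 8 * (cst : ℝ) * (r : ℝ) ^ 11 * (dataLeaves Φ : ℝ) ^ 2 *
      ((2 * wv M * yLeaves Φ + 4 * dataLeaves Φ) * (M : ℝ) ^ (3 / 2 : ℝ)) := by ring
    _ ≤ 8 * (cst : ℝ) * (r : ℝ) ^ 11 * (dataLeaves Φ : ℝ) ^ 2 *
      (4 * (yLeaves Φ + (M : ℝ) ^ (3 / 2 : ℝ) * dataLeaves Φ)) :=
        mul_le_mul_of_nonneg_left h5 (by positivity)
    _ = _ := by ring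

end Pool.Agent.H.MP_027d00_lc.Sel
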