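import Pool.Agent.H.MP_027d00_lc.mux.Mass

/-!
# The mass of a small formula, and the decomposition of a large one
-/

set_option autoImplicit false

open Finset

namespace Pool.Agent.H.MP_027d00_lc.Sel

open Pool.Agent.H.MP_027d00_lc.UComp

variable {Z : Type} [Fintype Z] [DecidableEq Z] {m n : ℕ}

theorem mass_nonneg {μ : Bool → (Fin n → Bool) → ℝ} (h0 : ∀ b x, 0 ≤ μ b x)
    (a : Z → Fin m → Bool) (Φ : Fm (Z ⊕ (Fin m × Fin n))) : 0 ≤ mass μ a Φ :=
  sum_nonneg fun _ _ => sum_nonneg fun _ _ => mul_nonneg (W_nonneg h0 _ _)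
    (sum_nonneg fun _ _ => ind_nonneg _)

/-- The mass of a formula with few leaves of both kinds. -/
theorem light {μ : Bool → (Fin n → Bool) → ℝ} (h0 : ∀ b x, 0 ≤ μ b x)
    (h1 : ∀ b, ∑ x, μ b x = 1) (hm : 1 ≤ m) {w t : ℕ} (ht : 1 ≤ t)
    (hE : ∀ h : (Fin n → Bool) → Bool, Comp (2 * w) h →
      ∑ x, μ true x * ind (h x) ≤
        (1 + 1 / (8 * (m : ℝ))) * ∑ x, μ false x * ind (h x) + 1 / (2 * (m : ℝ) * t))
    (a : Z → Fin m → Bool) (Φ : Fm (Z ⊕ (Fin m × Fin n))) (hw : matLeaves Φ ≤ w)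
    (hd : dataLeaves Φ ≤ t ^ 2) :
    mass μ a Φ ≤ 8 / 7 * (t : ℝ) * 2 ^ Fintype.card Z := by
  have hmR : (1 : ℝ) ≤ m := by exact_mod_cast hm
  have htR : (1 : ℝ) ≤ t := by exact_mod_cast ht
  have hm0 : (0 : ℝ) < m := by linarith
  have ht0 : (0 : ℝ) < t := by linarith
  set k : ℝ := 1 + 1 / (8 * (m : ℝ)) with hk
  have hk1 : 1 ≤ k := by rw [hk]; have : 0 ≤ 1 / (8 * (m : ℝ)) := by positivity
                         linarith
  have hkm : k ^ m ≤ 8 / 7 := pow_k_le hm
  have hkm0 : 0 ≤ k ^ m := by positivity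
  set τ : ℝ := 1 / (2 * (m : ℝ) * t) with hτ
  have hτ0 : 0 ≤ τ := by positivity
  have hyb := hybrid h0 h1 hk1 hτ0 hE m
  set N : ℝ := 2 ^ Fintype.card Z with hN
  have hN0 : 0 ≤ N := by positivity
  have hcard : (Fintype.card (Z → Bool) : ℝ) = N := by
    rw [Fintype.card_fun, Fintype.card_bool]
    push_cast
    rfl
  -- only the data variables that occur
  have e1 : mass μ a Φ = ∑ z ∈ occ Φ, ∑ p, ∑ X, W μ (a z) X * ind (sn Φ z p X) := by
    have e : mass μ a Φ = ∑ z, ∑ p, ∑ X, W μ (a z) X * ind (sn Φ z p X) := by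
      unfold mass
      refine sum_congr rfl fun z _ => ?_
      simp only [mul_sum]
      rw [sum_comm]
    rw [e]
    symm
    refine sum_subset (subset_univ _) fun z _ hz => ?_
    refine sum_eq_zero fun p _ => sum_eq_zero fun X _ => ?_
    have : sn Φ z p X = false := by
      simp [sn, eval_flip Φ hz]
    simp [this, ind]
  have e2 : ∀ z, ∀ p : Z → Bool, ∑ X, W μ (a z) X * ind (sn Φ z p X) ≤
      k ^ m * ∑ X, W μ (fun _ : Fin m => false) X * ind (sn Φ z p X) + m * k ^ m * τ :=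
    fun z p => hyb (a z) _ (sn_comp Φ hw z p)
  have e3 : mass μ a Φ ≤ k ^ m * (∑ z ∈ occ Φ, ∑ p, ∑ X, W μ (fun _ : Fin m => false) X *
      ind (sn Φ z p X)) + (occ Φ).card * N * (m * k ^ m * τ) := by
    rw [e1]
    calc ∑ z ∈ occ Φ, ∑ p, ∑ X, W μ (a z) X * ind (sn Φ z p X)
        ≤ ∑ z ∈ occ Φ, ∑ p, (k ^ m * ∑ X, W μ (fun _ : Fin m => false) X * ind (sn Φ z p X) +
          m * k ^ m * τ) := sum_le_sum fun z _ => sum_le_sum fun p _ => e2 z p
      _ = _ := by
          simp only [sum_add_distrib, mul_sum, sum_const, card_univ, nsmul_eq_mul, hcard]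
          ring
  have e4 : ∑ z ∈ occ Φ, ∑ p, ∑ X, W μ (fun _ : Fin m => false) X * ind (sn Φ z p X) ≤
      (t : ℝ) * N / 2 := by
    calc ∑ z ∈ occ Φ, ∑ p, ∑ X, W μ (fun _ : Fin m => false) X * ind (sn Φ z p X)
        ≤ ∑ z, ∑ p, ∑ X, W μ (fun _ : Fin m => false) X * ind (sn Φ z p X) :=
          sum_le_sum_of_subset_of_nonneg (subset_univ _) fun z _ _ =>
            sum_nonneg fun p _ => sum_nonneg fun X _ => mul_nonneg (W_nonneg h0 _ _) (ind_nonneg _)
      _ = ∑ X, W μ (fun _ : Fin m => false) X * ∑ z, ∑ p, ind (sn Φ z p X) := by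
          simp only [mul_sum]
          rw [sum_congr rfl fun z _ => sum_comm]
          rw [sum_comm]
      _ ≤ ∑ X : Mat m n, W μ (fun _ : Fin m => false) X * ((t : ℝ) * N / 2) := by
          refine sum_le_sum fun X _ => mul_le_mul_of_nonneg_left ?_ (W_nonneg h0 _ _)
          have h2 := khr_total (fixMat (fun v => X v.1 v.2) Φ) (t := t)
            (by rw [fixMat_size]; exact hd)
          have h3 : ∑ z, ∑ p, ind ((fixMat (fun v => X v.1 v.2) Φ).eval p &&
              !((fixMat (fun v => X v.1 v.2) Φ).eval (flip p z))) =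
              ∑ z, ∑ p, ind (sn Φ z p X) := by
            refine sum_congr rfl fun z _ => sum_congr rfl fun p _ => ?_
            rw [fixMat_eval, fixMat_eval]
            rfl
          rw [h3] at h2
          linarith
      _ = (t : ℝ) * N / 2 := by
          rw [← sum_mul, W_sum h1, one_mul]
  have e5 : ((occ Φ).card : ℝ) ≤ (t : ℝ) ^ 2 := by
    have := (card_occ Φ).trans hd
    exact_mod_cast this
  have e6 : ((occ Φ).card : ℝ) * N * (m * k ^ m * τ) ≤ (t : ℝ) ^ 2 * N * (m * (8 / 7) * τ) := by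
    have h2 : (m : ℝ) * k ^ m * τ ≤ m * (8 / 7) * τ :=
      mul_le_mul_of_nonneg_right (mul_le_mul_of_nonneg_left hkm (by linarith)) hτ0
    exact mul_le_mul (mul_le_mul_of_nonneg_right e5 hN0) h2 (by positivity) (by positivity)
  have e7 : (t : ℝ) ^ 2 * N * (m * (8 / 7) * τ) = 8 / 7 * (t : ℝ) * N / 2 := by
    rw [hτ]
    field_simp
  calc mass μ a Φ ≤ k ^ m * ((t : ℝ) * N / 2) + (t : ℝ) ^ 2 * N * (m * (8 / 7) * τ) :=
        e3.trans (add_le_add (mul_le_mul_of_nonneg_left e4 hkm0) e6)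
    _ ≤ 8 / 7 * ((t : ℝ) * N / 2) + 8 / 7 * (t : ℝ) * N / 2 := by
        rw [e7]
        have : 0 ≤ (t : ℝ) * N / 2 := by positivity
        nlinarith
    _ = 8 / 7 * (t : ℝ) * N := by ring

/-- The mass of a single literal. -/
theorem mass_lit {μ : Bool → (Fin n → Bool) → ℝ} (h0 : ∀ b x, 0 ≤ μ b x)
    (h1 : ∀ b, ∑ x, μ b x = 1) (a : Z → Fin m → Bool) (v : Z ⊕ (Fin m × Fin n)) (b : Bool) :
    mass μ a (.lit v b) ≤ 2 ^ Fintype.card Z := by
  have hcard : (Fintype.card (Z → Bool) : ℝ) = 2 ^ Fintype.card Z := by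
    rw [Fintype.card_fun, Fintype.card_bool]
    push_cast
    rfl
  cases v with
  | inl y =>
    have h2 : mass μ a (.lit (Sum.inl y) b) = ∑ X, W μ (a y) X *
        ∑ p, ind (sn (.lit (Sum.inl y) b : Fm (Z ⊕ (Fin m × Fin n))) y p X) := by
      unfold mass
      refine sum_eq_single y (fun z _ hz => ?_) (fun h => absurd (mem_univ y) h)
      refine sum_eq_zero fun X _ => ?_
      rw [sum_eq_zero, mul_zero]
      intro p _
      have : sn (.lit (Sum.inl y) b : Fm (Z ⊕ (Fin m × Fin n))) z p X = false := by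
        simp only [sn]
        rw [eval_flip]
        · simp
        · simp [occ, hz]
      simp [this, ind]
    rw [h2]
    calc ∑ X, W μ (a y) X * ∑ p, ind (sn (.lit (Sum.inl y) b : Fm (Z ⊕ (Fin m × Fin n))) y p X)
        ≤ ∑ X, W μ (a y) X * 2 ^ Fintype.card Z := by
          refine sum_le_sum fun X _ => mul_le_mul_of_nonneg_left ?_ (W_nonneg h0 _ _)
          calc ∑ p, ind (sn (.lit (Sum.inl y) b : Fm (Z ⊕ (Fin m × Fin n))) y p X)
              ≤ ∑ _p : Z → Bool, (1 : ℝ) := sum_le_sum fun p _ => ind_le_one _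
            _ = 2 ^ Fintype.card Z := by
              rw [sum_const, card_univ, nsmul_eq_mul, hcard, mul_one]
      _ = 2 ^ Fintype.card Z := by rw [← sum_mul, W_sum h1, one_mul]
  | inr v =>
    have : mass μ a (.lit (Sum.inr v) b) = 0 := by
      unfold mass
      refine sum_eq_zero fun z _ => sum_eq_zero fun X _ => ?_
      rw [sum_eq_zero, mul_zero]
      intro p _
      simp [sn, Fm.eval, inp, ind]
    rw [this]
    positivity

/-- The decomposition. -/
theorem decomp {μ : Bool → (Fin n → Bool) → ℝ} (h0 : ∀ b x, 0 ≤ μ b x) (a : Z → Fin m → Bool)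
    {w u : ℕ} {B : ℝ} (hB : 0 ≤ B)
    (hL : ∀ Φ : Fm (Z ⊕ (Fin m × Fin n)), matLeaves Φ ≤ w → dataLeaves Φ ≤ u → mass μ a Φ ≤ B)
    (hlit : ∀ v b, mass μ a (.lit v b : Fm (Z ⊕ (Fin m × Fin n))) ≤ B)
    (ω : ℕ → ℕ → ℝ) (hω : ∀ b c, ω b c = (b : ℝ) / (u + 1) + (c : ℝ) / (w + 1)) :
    ∀ (Φ : Fm (Z ⊕ (Fin m × Fin n))) (κ : Fm (Z ⊕ (Fin m × Fin n)) → Fm (Z ⊕ (Fin m × Fin n)))
      (b c : ℕ), IsCtx κ b c → ω b c < 1 / 2 →
      mass μ a (κ Φ) ≤ B * (if ω (b + dataLeaves Φ) (c + matLeaves Φ) < 1 then 1 else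
        6 * ω (b + dataLeaves Φ) (c + matLeaves Φ) - 2) := by
  have hadd : ∀ b c b' c', ω (b + b') (c + c') = ω b c + ω b' c' := by
    intro b c b' c'
    simp only [hω]
    push_cast
    ring
  have hnn : ∀ b c, 0 ≤ ω b c := by
    intro b c
    rw [hω]
    positivity
  have hlt : ∀ b c, ω b c < 1 → b ≤ u ∧ c ≤ w := by
    intro b c h
    have hu : (0 : ℝ) < (u : ℝ) + 1 := by positivity
    have hw : (0 : ℝ) < (w : ℝ) + 1 := by positivity
    rw [hω] at h
    have h1 : 0 ≤ (b : ℝ) / (u + 1) := by positivity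
    have h2 : 0 ≤ (c : ℝ) / (w + 1) := by positivity
    have h3 : (b : ℝ) / (u + 1) < 1 := by linarith
    have h4 : (c : ℝ) / (w + 1) < 1 := by linarith
    rw [div_lt_one hu] at h3
    rw [div_lt_one hw] at h4
    have h5 : b < u + 1 := by exact_mod_cast h3
    have h6 : c < w + 1 := by exact_mod_cast h4
    omega
  -- light in total
  have light' : ∀ (Φ : Fm (Z ⊕ (Fin m × Fin n)))
      (κ : Fm (Z ⊕ (Fin m × Fin n)) → Fm (Z ⊕ (Fin m × Fin n))) (b c : ℕ), IsCtx κ b c →
      ω (b + dataLeaves Φ) (c + matLeaves Φ) < 1 → mass μ a (κ Φ) ≤ B := by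
    intro Φ κ b c hκ h
    obtain ⟨h1, h2⟩ := hlt _ _ h
    exact hL _ (by rw [hκ.mat]; exact h2) (by rw [hκ.data]; exact h1)
  have hcon : ∀ (κ : Fm (Z ⊕ (Fin m × Fin n)) → Fm (Z ⊕ (Fin m × Fin n))) (b c : ℕ),
      IsCtx κ b c → ω b c < 1 / 2 → ∀ d : Bool, mass μ a (κ (.const d)) ≤ B := by
    intro κ b c hκ h d
    refine light' _ _ b c hκ ?_
    have e1 : dataLeaves (.const d : Fm (Z ⊕ (Fin m × Fin n))) = 0 := rfl
    have e2 : matLeaves (.const d : Fm (Z ⊕ (Fin m × Fin n))) = 0 := rfl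
    rw [e1, e2, Nat.add_zero, Nat.add_zero]
    linarith
  -- the heavy binary case
  have heavy : ∀ (F G Φ : Fm (Z ⊕ (Fin m × Fin n)))
      (κ : Fm (Z ⊕ (Fin m × Fin n)) → Fm (Z ⊕ (Fin m × Fin n))) (b c : ℕ), IsCtx κ b c →
      ω b c < 1 / 2 → dataLeaves Φ = dataLeaves F + dataLeaves G →
      matLeaves Φ = matLeaves F + matLeaves G →
      mass μ a Φ ≤ mass μ a F + mass μ a G →
      ¬ ω (b + dataLeaves Φ) (c + matLeaves Φ) < 1 →
      ω (dataLeaves F) (matLeaves F) ≤ ω (dataLeaves G) (matLeaves G) →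
      ¬ ω (b + dataLeaves F) (c + matLeaves F) < 1 / 2 →
      mass μ a F ≤ B * (if ω (dataLeaves F) (matLeaves F) < 1 then 1 else
        6 * ω (dataLeaves F) (matLeaves F) - 2) →
      mass μ a G ≤ B * (if ω (dataLeaves G) (matLeaves G) < 1 then 1 else
        6 * ω (dataLeaves G) (matLeaves G) - 2) →
      mass μ a (κ Φ) ≤ B * (6 * ω (b + dataLeaves Φ) (c + matLeaves Φ) - 2) := by
    intro F G Φ κ b c hκ hbc hd hm' hΦ hx hFG hhalf hF hG
    have h1 := mass_ctx h0 a hκ Φ
    have h2 := hcon κ b c hκ hbc false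
    have h3 := hcon κ b c hκ hbc true
    rw [hadd] at hhalf
    rw [hd, hm', hadd, hadd] at hx
    rw [hd, hm', hadd, hadd]
    have hbc0 := hnn b c
    have hF0 := hnn (dataLeaves F) (matLeaves F)
    set x := ω b c with hxdef
    set y := ω (dataLeaves F) (matLeaves F) with hydef
    set z := ω (dataLeaves G) (matLeaves G) with hzdef
    push Not at hx hhalf
    have h4 : mass μ a (κ Φ) ≤ 2 * B + mass μ a F + mass μ a G := by linarith
    by_cases hy : y < 1
    · rw [if_pos hy] at hF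
      by_cases hz : z < 1
      · rw [if_pos hz] at hG
        have : B * 4 ≤ B * (6 * (x + (y + z)) - 2) := mul_le_mul_of_nonneg_left (by linarith) hB
        linarith
      · rw [if_neg hz] at hG
        have : B * (2 + 1 + (6 * z - 2)) ≤ B * (6 * (x + (y + z)) - 2) :=
          mul_le_mul_of_nonneg_left (by linarith) hB
        linarith
    · rw [if_neg hy] at hF
      have hz : ¬ z < 1 := by
        push Not at hy ⊢
        linarith
      rw [if_neg hz] at hG
      have : B * (2 + (6 * y - 2) + (6 * z - 2)) ≤ B * (6 * (x + (y + z)) - 2) :=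
        mul_le_mul_of_nonneg_left (by linarith) hB
      linarith
  have hω00 : ω 0 0 < 1 / 2 := by rw [hω]; norm_num
  intro Φ
  induction Φ with
  | const d =>
    intro κ b c hκ hbc
    have e1 : dataLeaves (.const d : Fm (Z ⊕ (Fin m × Fin n))) = 0 := rfl
    have e2 : matLeaves (.const d : Fm (Z ⊕ (Fin m × Fin n))) = 0 := rfl
    rw [e1, e2, Nat.add_zero, Nat.add_zero, if_pos (by linarith), mul_one]
    exact hcon κ b c hκ hbc d
  | lit v d =>
    intro κ b c hκ hbc
    by_cases hx : ω (b + dataLeaves (.lit v d : Fm (Z ⊕ (Fin m × Fin n))))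
        (c + matLeaves (.lit v d : Fm (Z ⊕ (Fin m × Fin n)))) < 1
    · rw [if_pos hx, mul_one]
      exact light' _ _ b c hκ hx
    · rw [if_neg hx]
      have h1 := mass_ctx h0 a hκ (.lit v d)
      have h2 := hcon κ b c hκ hbc false
      have h3 := hcon κ b c hκ hbc true
      have h4 := hlit v d
      push Not at hx
      have h5 : B * 4 ≤ B * (6 * ω (b + dataLeaves (.lit v d : Fm (Z ⊕ (Fin m × Fin n))))
        (c + matLeaves (.lit v d : Fm (Z ⊕ (Fin m × Fin n)))) - 2) :=
        mul_le_mul_of_nonneg_left (by linarith) hB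
      linarith
  | and F G ihF ihG =>
    intro κ b c hκ hbc
    by_cases hx : ω (b + dataLeaves (.and F G)) (c + matLeaves (.and F G)) < 1
    · rw [if_pos hx, mul_one]
      exact light' _ _ b c hκ hx
    have hF := ihF (fun u => u) 0 0 IsCtx.id hω00
    have hG := ihG (fun u => u) 0 0 IsCtx.id hω00
    simp only [Nat.zero_add] at hF hG
    rcases le_total (ω (dataLeaves F) (matLeaves F)) (ω (dataLeaves G) (matLeaves G)) with hFG | hFG
    · by_cases hh : ω (b + dataLeaves F) (c + matLeaves F) < 1 / 2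
      · have := ihG (fun u => κ (.and F u)) _ _ (hκ.andL F) hh
        have e1 : b + dataLeaves F + dataLeaves G = b + dataLeaves (.and F G) := by
          simp only [dataLeaves]; ring
        have e2 : c + matLeaves F + matLeaves G = c + matLeaves (.and F G) := by
          simp only [matLeaves]; ring
        rw [e1, e2] at this
        exact this
      · rw [if_neg hx]
        exact heavy F G (.and F G) κ b c hκ hbc rfl rfl (mass_and h0 a F G) hx hFG hh hF hG
    · by_cases hh : ω (b + dataLeaves G) (c + matLeaves G) < 1 / 2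
      · have := ihF (fun u => κ (.and u G)) _ _ (hκ.andR G) hh
        have e1 : b + dataLeaves G + dataLeaves F = b + dataLeaves (.and F G) := by
          simp only [dataLeaves]; ring
        have e2 : c + matLeaves G + matLeaves F = c + matLeaves (.and F G) := by
          simp only [matLeaves]; ring
        rw [e1, e2] at this
        exact this
      · rw [if_neg hx]
        exact heavy G F (.and F G) κ b c hκ hbc (by simp only [dataLeaves]; ring)
          (by simp only [matLeaves]; ring) ((mass_and h0 a F G).trans (le_of_eq (by ring)))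
          hx hFG hh hG hF
  | or F G ihF ihG =>
    intro κ b c hκ hbc
    by_cases hx : ω (b + dataLeaves (.or F G)) (c + matLeaves (.or F G)) < 1
    · rw [if_pos hx, mul_one]
      exact light' _ _ b c hκ hx
    have hF := ihF (fun u => u) 0 0 IsCtx.id hω00
    have hG := ihG (fun u => u) 0 0 IsCtx.id hω00
    simp only [Nat.zero_add] at hF hG
    rcases le_total (ω (dataLeaves F) (matLeaves F)) (ω (dataLeaves G) (matLeaves G)) with hFG | hFG
    · by_cases hh : ω (b + dataLeaves F) (c + matLeaves F) < 1 / 2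
      · have := ihG (fun u => κ (.or F u)) _ _ (hκ.orL F) hh
        have e1 : b + dataLeaves F + dataLeaves G = b + dataLeaves (.or F G) := by
          simp only [dataLeaves]; ring
        have e2 : c + matLeaves F + matLeaves G = c + matLeaves (.or F G) := by
          simp only [matLeaves]; ring
        rw [e1, e2] at this
        exact this
      · rw [if_neg hx]
        exact heavy F G (.or F G) κ b c hκ hbc rfl rfl (mass_or h0 a F G) hx hFG hh hF hG
    · by_cases hh : ω (b + dataLeaves G) (c + matLeaves G) < 1 / 2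
      · have := ihF (fun u => κ (.or u G)) _ _ (hκ.orR G) hh
        have e1 : b + dataLeaves G + dataLeaves F = b + dataLeaves (.or F G) := by
          simp only [dataLeaves]; ring
        have e2 : c + matLeaves G + matLeaves F = c + matLeaves (.or F G) := by
          simp only [matLeaves]; ring
        rw [e1, e2] at this
        exact this
      · rw [if_neg hx]
        exact heavy G F (.or F G) κ b c hκ hbc (by simp only [dataLeaves]; ring)
          (by simp only [matLeaves]; ring) ((mass_or h0 a F G).trans (le_of_eq (by ring)))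
          hx hFG hh hG hF

/-- The mass of an arbitrary formula. -/
theorem mass_bound {μ : Bool → (Fin n → Bool) → ℝ} (h0 : ∀ b x, 0 ≤ μ b x)
    (h1 : ∀ b, ∑ x, μ b x = 1) (hm : 1 ≤ m) {w t : ℕ} (ht : 1 ≤ t)
    (hE : ∀ h : (Fin n → Bool) → Bool, Comp (2 * w) h →
      ∑ x, μ true x * ind (h x) ≤
        (1 + 1 / (8 * (m : ℝ))) * ∑ x, μ false x * ind (h x) + 1 / (2 * (m : ℝ) * t))
    (a : Z → Fin m → Bool) (Φ : Fm (Z ⊕ (Fin m × Fin n))) :
    mass μ a Φ ≤ 8 / 7 * (t : ℝ) * 2 ^ Fintype.card Z *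
      (6 * ((dataLeaves Φ : ℝ) / ((t : ℝ) ^ 2 + 1) + (matLeaves Φ : ℝ) / (w + 1)) + 1) := by
  have htR : (1 : ℝ) ≤ t := by exact_mod_cast ht
  have hB : (0 : ℝ) ≤ 8 / 7 * (t : ℝ) * 2 ^ Fintype.card Z := by positivity
  have hN : (0 : ℝ) < 2 ^ Fintype.card Z := by positivity
  have := decomp (Z := Z) (u := t ^ 2) h0 a hB (fun Φ hw hd => light h0 h1 hm ht hE a Φ hw hd)
    (fun v b => (mass_lit h0 h1 a v b).trans (by nlinarith))
    (fun b c => (b : ℝ) / ((t ^ 2 : ℕ) + 1) + (c : ℝ) / (w + 1)) (fun b c => rfl) Φ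
    (fun u => u) 0 0 IsCtx.id (by norm_num)
  simp only [Nat.zero_add] at this
  push_cast at this
  refine this.trans (mul_le_mul_of_nonneg_left ?_ hB)
  have h2 : 0 ≤ (dataLeaves Φ : ℝ) / ((t : ℝ) ^ 2 + 1) + (matLeaves Φ : ℝ) / (w + 1) := by
    positivity
  split_ifs <;> linarith

end Pool.Agent.H.MP_027d00_lc.Sel
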