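import Pool.Agent.H.MP_027d00_lc.mux.Khr

/-!
# The mass of the sensitive pairs
-/

set_option autoImplicit false

open Finset

namespace Pool.Agent.H.MP_027d00_lc.Sel

open Pool.Agent.H.MP_027d00_lc.UComp

variable {Z : Type} [Fintype Z] [DecidableEq Z] {m n : ℕ}

/-- The mass of the sensitive triples `(z, p, X)`, `X` distributed according to `W μ (a z)`. -/
noncomputable def mass (μ : Bool → (Fin n → Bool) → ℝ) (a : Z → Fin m → Bool)
    (Φ : Fm (Z ⊕ (Fin m × Fin n))) : ℝ :=
  ∑ z, ∑ X, W μ (a z) X * ∑ p, ind (sn Φ z p X)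

theorem mass_le_of_sn {μ : Bool → (Fin n → Bool) → ℝ} (h0 : ∀ b x, 0 ≤ μ b x)
    {a : Z → Fin m → Bool} {Φ : Fm (Z ⊕ (Fin m × Fin n))} {l : List (Fm (Z ⊕ (Fin m × Fin n)))}
    (h : ∀ z p X, sn Φ z p X = true → ∃ Ψ ∈ l, sn Ψ z p X = true) :
    mass μ a Φ ≤ (l.map (mass μ a)).sum := by
  have h1 : ∀ z p X, ind (sn Φ z p X) ≤ (l.map (fun Ψ => ind (sn Ψ z p X))).sum := by
    intro z p X
    by_cases hs : sn Φ z p X = true
    · obtain ⟨Ψ, hΨ, hΨ'⟩ := h z p X hs
      have h2 : ind (sn Ψ z p X) ≤ (l.map (fun Ψ => ind (sn Ψ z p X))).sum :=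
        List.single_le_sum (by
          intro x hx
          obtain ⟨Ψ', _, rfl⟩ := List.mem_map.1 hx
          exact ind_nonneg _) _ (List.mem_map.2 ⟨Ψ, hΨ, rfl⟩)
      rw [hs, ← hΨ']
      exact h2
    · simp only [Bool.not_eq_true] at hs
      rw [hs]
      simp only [ind]
      refine List.sum_nonneg ?_
      intro x hx
      obtain ⟨Ψ', _, rfl⟩ := List.mem_map.1 hx
      exact ind_nonneg _
  have h2 : ∀ l : List (Fm (Z ⊕ (Fin m × Fin n))), (l.map (mass μ a)).sum =
      ∑ z, ∑ X, W μ (a z) X * ∑ p, (l.map (fun Ψ => ind (sn Ψ z p X))).sum := by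
    intro l
    induction l with
    | nil => simp
    | cons Ψ l ih =>
      simp only [List.map_cons, List.sum_cons, ih, sum_add_distrib, mul_add]
      rfl
  rw [h2]
  unfold mass
  exact sum_le_sum fun z _ => sum_le_sum fun X _ =>
    mul_le_mul_of_nonneg_left (sum_le_sum fun p _ => h1 z p X) (W_nonneg h0 _ _)

theorem mass_or {μ : Bool → (Fin n → Bool) → ℝ} (h0 : ∀ b x, 0 ≤ μ b x)
    (a : Z → Fin m → Bool) (F G : Fm (Z ⊕ (Fin m × Fin n))) :
    mass μ a (.or F G) ≤ mass μ a F + mass μ a G := by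
  have := mass_le_of_sn h0 (a := a) (Φ := .or F G) (l := [F, G]) (by
    intro z p X h
    simp only [sn, Fm.eval, Bool.and_eq_true, Bool.or_eq_true, Bool.not_eq_true',
      Bool.or_eq_false_iff] at h
    obtain ⟨h1 | h1, h2, h3⟩ := h
    · exact ⟨F, by simp, by simp [sn, h1, h2]⟩
    · exact ⟨G, by simp, by simp [sn, h1, h3]⟩)
  simpa using this

theorem mass_and {μ : Bool → (Fin n → Bool) → ℝ} (h0 : ∀ b x, 0 ≤ μ b x)
    (a : Z → Fin m → Bool) (F G : Fm (Z ⊕ (Fin m × Fin n))) :
    mass μ a (.and F G) ≤ mass μ a F + mass μ a G := by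
  have := mass_le_of_sn h0 (a := a) (Φ := .and F G) (l := [F, G]) (by
    intro z p X h
    simp only [sn, Fm.eval, Bool.and_eq_true, Bool.not_eq_true', Bool.and_eq_false_iff] at h
    obtain ⟨⟨h1, h2⟩, h3 | h3⟩ := h
    · exact ⟨F, by simp, by simp [sn, h1, h3]⟩
    · exact ⟨G, by simp, by simp [sn, h2, h3]⟩)
  simpa using this

/-- Contexts: monotone functions of the value of the formula in the hole, with `b` data leaves and
`c` matrix leaves. -/
structure IsCtx {V : Type} (κ : Fm (Z ⊕ V) → Fm (Z ⊕ V)) (b c : ℕ) : Prop where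
  data : ∀ u, dataLeaves (κ u) = b + dataLeaves u
  mat : ∀ u, matLeaves (κ u) = c + matLeaves u
  mono : ∀ u v x, (u.eval x = true → v.eval x = true) → (κ u).eval x = true → (κ v).eval x = true

theorem IsCtx.id {V : Type} : IsCtx (Z := Z) (V := V) (fun u => u) 0 0 :=
  ⟨fun u => by simp, fun u => by simp, fun _ _ _ h => h⟩

theorem IsCtx.orL {V : Type} {κ : Fm (Z ⊕ V) → Fm (Z ⊕ V)} {b c : ℕ} (h : IsCtx κ b c)
    (G : Fm (Z ⊕ V)) : IsCtx (fun u => κ (.or G u)) (b + dataLeaves G) (c + matLeaves G) := by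
  refine ⟨fun u => ?_, fun u => ?_, fun u v x huv => ?_⟩
  · rw [h.data]; simp only [dataLeaves]; ring
  · rw [h.mat]; simp only [matLeaves]; ring
  · refine h.mono _ _ x ?_
    simp only [Fm.eval, Bool.or_eq_true]
    exact Or.imp_right huv

theorem IsCtx.orR {V : Type} {κ : Fm (Z ⊕ V) → Fm (Z ⊕ V)} {b c : ℕ} (h : IsCtx κ b c)
    (G : Fm (Z ⊕ V)) : IsCtx (fun u => κ (.or u G)) (b + dataLeaves G) (c + matLeaves G) := by
  refine ⟨fun u => ?_, fun u => ?_, fun u v x huv => ?_⟩
  · rw [h.data]; simp only [dataLeaves]; ring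
  · rw [h.mat]; simp only [matLeaves]; ring
  · refine h.mono _ _ x ?_
    simp only [Fm.eval, Bool.or_eq_true]
    exact Or.imp_left huv

theorem IsCtx.andL {V : Type} {κ : Fm (Z ⊕ V) → Fm (Z ⊕ V)} {b c : ℕ} (h : IsCtx κ b c)
    (G : Fm (Z ⊕ V)) : IsCtx (fun u => κ (.and G u)) (b + dataLeaves G) (c + matLeaves G) := by
  refine ⟨fun u => ?_, fun u => ?_, fun u v x huv => ?_⟩
  · rw [h.data]; simp only [dataLeaves]; ring
  · rw [h.mat]; simp only [matLeaves]; ring
  · refine h.mono _ _ x ?_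
    simp only [Fm.eval, Bool.and_eq_true]
    exact And.imp_right huv

theorem IsCtx.andR {V : Type} {κ : Fm (Z ⊕ V) → Fm (Z ⊕ V)} {b c : ℕ} (h : IsCtx κ b c)
    (G : Fm (Z ⊕ V)) : IsCtx (fun u => κ (.and u G)) (b + dataLeaves G) (c + matLeaves G) := by
  refine ⟨fun u => ?_, fun u => ?_, fun u v x huv => ?_⟩
  · rw [h.data]; simp only [dataLeaves]; ring
  · rw [h.mat]; simp only [matLeaves]; ring
  · refine h.mono _ _ x ?_
    simp only [Fm.eval, Bool.and_eq_true]
    exact And.imp_left huv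

theorem mass_ctx {μ : Bool → (Fin n → Bool) → ℝ} (h0 : ∀ b x, 0 ≤ μ b x)
    (a : Z → Fin m → Bool) {κ : Fm (Z ⊕ (Fin m × Fin n)) → Fm (Z ⊕ (Fin m × Fin n))} {b c : ℕ}
    (hκ : IsCtx κ b c) (u : Fm (Z ⊕ (Fin m × Fin n))) :
    mass μ a (κ u) ≤ mass μ a (κ (.const false)) + mass μ a (κ (.const true)) + mass μ a u := by
  have := mass_le_of_sn h0 (a := a) (Φ := κ u) (l := [κ (.const false), κ (.const true), u]) (by
    intro z p X h
    simp only [sn, Bool.and_eq_true, Bool.not_eq_true'] at h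
    obtain ⟨h1, h2⟩ := h
    -- the context with the hole 0 is 0 after the flip
    have e1 : (κ (.const false)).eval (inp (flip p z) X) = false := by
      by_contra hne
      rw [Bool.not_eq_false] at hne
      have := hκ.mono (.const false) u _ (by simp [Fm.eval]) hne
      rw [h2] at this
      exact absurd this (by simp)
    have e2 : (κ (.const true)).eval (inp p X) = true :=
      hκ.mono u (.const true) _ (by simp [Fm.eval]) h1
    by_cases e3 : (κ (.const false)).eval (inp p X) = true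
    · exact ⟨κ (.const false), by simp, by simp [sn, e1, e3]⟩
    by_cases e4 : (κ (.const true)).eval (inp (flip p z) X) = false
    · exact ⟨κ (.const true), by simp, by simp [sn, e2, e4]⟩
    refine ⟨u, by simp, ?_⟩
    have e5 : u.eval (inp p X) = true := by
      by_contra hne
      rw [Bool.not_eq_true] at hne
      exact e3 (hκ.mono u (.const false) _ (by rw [hne]; simp) h1)
    have e6 : u.eval (inp (flip p z) X) = false := by
      by_contra hne
      rw [Bool.not_eq_false] at hne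
      rw [Bool.not_eq_false] at e4
      have := hκ.mono (.const true) u (inp (flip p z) X) (fun _ => hne) e4
      rw [h2] at this
      exact absurd this (by simp)
    simp [sn, e5, e6])
  simp only [List.map_cons, List.map_nil, List.sum_cons, List.sum_nil] at this
  linarith

end Pool.Agent.H.MP_027d00_lc.Sel
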