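import Pool.Agent.H.MP_027d00_lc.mux.Part

/-!
# Formulas with pure parts
-/

set_option autoImplicit false

open Finset

namespace Pool.Agent.H.MP_027d00_lc.Sel

open Pool.Agent.H.MP_027d00_lc.UComp

/-- Formulas over data literals and pure formulas. -/
inductive Mx (Z V : Type) : Type
  | pure (F : Fm V)
  | dat (z : Z) (b : Bool)
  | gate (c : Bool) (F G : Mx Z V)

namespace Mx

variable {Z V : Type}

def eval (p : Z → Bool) (y : V → Bool) : Mx Z V → Bool
  | .pure F => F.eval y
  | .dat z b => p z == b
  | .gate c F G => gt c (F.eval p y) (G.eval p y)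

/-- number of data leaves -/
def data : Mx Z V → ℕ
  | .pure _ => 0
  | .dat _ _ => 1
  | .gate _ F G => F.data + G.data

/-- number of pure parts -/
def parts : Mx Z V → ℕ
  | .pure _ => 1
  | .dat _ _ => 0
  | .gate _ F G => F.parts + G.parts

/-- total size of the pure parts -/
def tot : Mx Z V → ℕ
  | .pure F => F.size
  | .dat _ _ => 0
  | .gate _ F G => F.tot + G.tot

/-- the variables of the pure parts are in `A` -/
def In (A : Finset V) : Mx Z V → Prop
  | .pure F => ∀ v ∈ lv F, v ∈ A
  | .dat _ _ => True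
  | .gate _ F G => F.In A ∧ G.In A

/-- the total potential -/
noncomputable def pot (wt : V → ℝ) : Mx Z V → ℝ
  | .pure F => pt wt F
  | .dat _ _ => 0
  | .gate _ F G => F.pot wt + G.pot wt

theorem In_univ [Fintype V] (T : Mx Z V) : T.In univ := by
  induction T with
  | pure F => intro v _; exact mem_univ v
  | dat z b => trivial
  | gate c F G ihF ihG => exact ⟨ihF, ihG⟩

theorem pot_le {wt : V → ℝ} {w : ℝ} (h0 : 0 ≤ w) (h : ∀ v, wt v = w) (T : Mx Z V) :
    T.pot wt ≤ w * T.tot + T.parts := by
  induction T with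
  | pure F =>
    have h1 := pt_le (wt := wt) (F := F) le_rfl (fun v _ => by rw [h]; exact h0)
    have h2 : ws wt (lv F) = w * F.size := by
      have : ∀ L : Multiset V, ws wt L = w * (L.card : ℝ) := by
        intro L
        induction L using Multiset.induction_on with
        | empty => simp [ws]
        | cons a L ih =>
          have e : ws wt (a ::ₘ L) = wt a + ws wt L := by simp [ws]
          rw [e, ih, h, Multiset.card_cons]
          push_cast
          ring
      rw [this, card_lv]
    simp only [pot, tot, parts]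
    rw [h2] at h1
    push_cast
    exact h1
  | dat z b => simp [pot, tot, parts]
  | gate c F G ihF ihG =>
    simp only [pot, tot, parts]
    push_cast
    linarith

theorem tot_le {wt : V → ℝ} (h : ∀ v, wt v = 1) (T : Mx Z V) : (T.tot : ℝ) ≤ T.pot wt := by
  induction T with
  | pure F =>
    simp only [pot, tot, pt]
    have h2 : ws wt (lv F) = F.size := by
      have : ∀ L : Multiset V, ws wt L = (L.card : ℝ) := by
        intro L
        induction L using Multiset.induction_on with
        | empty => simp [ws]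
        | cons a L ih =>
          have e : ws wt (a ::ₘ L) = wt a + ws wt L := by simp [ws]
          rw [e, ih, h, Multiset.card_cons]
          push_cast
          ring
      rw [this, card_lv]
    split_ifs with hc
    · rw [card_lv] at hc
      exact_mod_cast hc
    · rw [h2]
      linarith
  | dat z b => simp [pot, tot]
  | gate c F G ihF ihG =>
    simp only [pot, tot]
    push_cast
    linarith

/-- `K₀ ∨ (K₁ ∧ T)` -/
def wrap (K₀ K₁ : Fm V) (T : Mx Z V) : Mx Z V := .gate false (.pure K₀) (.gate true (.pure K₁) T)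

theorem eval_wrap (K₀ K₁ : Fm V) (T : Mx Z V) (p : Z → Bool) (y : V → Bool) :
    (wrap K₀ K₁ T).eval p y = (K₀.eval y || (K₁.eval y && T.eval p y)) := rfl

end Mx

variable {Z V : Type}

/-- Pure contexts of size `c`. -/
structure PC (κ : Fm V → Fm V) (c : ℕ) : Prop where
  size : ∀ u, (κ u).size = c + u.size
  ev : ∀ u y, (κ u).eval y =
    ((κ (.const false)).eval y || ((κ (.const true)).eval y && u.eval y))

theorem PC.id : PC (fun u : Fm V => u) 0 :=
  ⟨fun u => by simp, fun u y => by simp [Fm.eval]⟩

theorem PC.andF {κ : Fm V → Fm V} {c : ℕ} (h : PC κ c) (F : Fm V) :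
    PC (fun u => κ (.and F u)) (c + F.size) := by
  refine ⟨fun u => by rw [h.size]; simp only [Fm.size]; ring, fun u y => ?_⟩
  rw [h.ev (.and F u), h.ev (.and F (.const false)), h.ev (.and F (.const true))]
  simp only [Fm.eval]
  generalize (κ (.const false)).eval y = a
  generalize (κ (.const true)).eval y = b
  generalize F.eval y = f
  generalize u.eval y = w
  cases a <;> cases b <;> cases f <;> cases w <;> rfl

theorem PC.orF {κ : Fm V → Fm V} {c : ℕ} (h : PC κ c) (F : Fm V) :
    PC (fun u => κ (.or F u)) (c + F.size) := by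
  refine ⟨fun u => by rw [h.size]; simp only [Fm.size]; ring, fun u y => ?_⟩
  rw [h.ev (.or F u), h.ev (.or F (.const false)), h.ev (.or F (.const true))]
  simp only [Fm.eval]
  generalize (κ (.const false)).eval y = a
  generalize (κ (.const true)).eval y = b
  generalize F.eval y = f
  generalize u.eval y = w
  cases a <;> cases b <;> cases f <;> cases w <;> rfl

/-- The value of a formula over data and other variables. -/
def ev2 (p : Z → Bool) (y : V → Bool) (Φ : Fm (Z ⊕ V)) : Bool := Φ.eval (Sum.elim p y)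

theorem pure_of_data_zero (Φ : Fm (Z ⊕ V)) (h : dataLeaves Φ = 0) :
    ∃ F : Fm V, F.size = matLeaves Φ ∧ ∀ p y, F.eval y = ev2 p y Φ := by
  induction Φ with
  | const b => exact ⟨.const b, rfl, fun _ _ => rfl⟩
  | lit v b =>
    cases v with
    | inl z => simp [dataLeaves] at h
    | inr v => exact ⟨.lit v b, rfl, fun _ _ => rfl⟩
  | and F G ihF ihG =>
    simp only [dataLeaves] at h
    obtain ⟨F', h1, h2⟩ := ihF (by omega)
    obtain ⟨G', h3, h4⟩ := ihG (by omega)
    refine ⟨.and F' G', by simp only [Fm.size, matLeaves, h1, h3], fun p y => ?_⟩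
    simp only [Fm.eval, ev2]
    rw [h2 p, h4 p]
    rfl
  | or F G ihF ihG =>
    simp only [dataLeaves] at h
    obtain ⟨F', h1, h2⟩ := ihF (by omega)
    obtain ⟨G', h3, h4⟩ := ihG (by omega)
    refine ⟨.or F' G', by simp only [Fm.size, matLeaves, h1, h3], fun p y => ?_⟩
    simp only [Fm.eval, ev2]
    rw [h2 p, h4 p]
    rfl

/-- The pure parts of a formula. -/
theorem exists_mx (Φ : Fm (Z ⊕ V)) : 1 ≤ dataLeaves Φ → ∀ (κ : Fm V → Fm V) (c : ℕ), PC κ c →
    ∃ T : Mx Z V, T.data = dataLeaves Φ ∧ T.tot ≤ 2 * (c + matLeaves Φ) ∧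
      T.parts + 2 ≤ 4 * dataLeaves Φ ∧
      ∀ p y, T.eval p y = ((κ (.const false)).eval y || ((κ (.const true)).eval y && ev2 p y Φ)) := by
  -- the case of a gate
  have gate : ∀ (c₀ : Bool) (Φ F G : Fm (Z ⊕ V)), dataLeaves Φ = dataLeaves F + dataLeaves G →
      matLeaves Φ = matLeaves F + matLeaves G → (∀ p y, ev2 p y Φ = gt c₀ (ev2 p y F) (ev2 p y G)) →
      (1 ≤ dataLeaves F → ∀ (κ : Fm V → Fm V) (c : ℕ), PC κ c →
        ∃ T : Mx Z V, T.data = dataLeaves F ∧ T.tot ≤ 2 * (c + matLeaves F) ∧
        T.parts + 2 ≤ 4 * dataLeaves F ∧ ∀ p y, T.eval p y =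
          ((κ (.const false)).eval y || ((κ (.const true)).eval y && ev2 p y F))) →
      (1 ≤ dataLeaves G → ∀ (κ : Fm V → Fm V) (c : ℕ), PC κ c →
        ∃ T : Mx Z V, T.data = dataLeaves G ∧ T.tot ≤ 2 * (c + matLeaves G) ∧
        T.parts + 2 ≤ 4 * dataLeaves G ∧ ∀ p y, T.eval p y =
          ((κ (.const false)).eval y || ((κ (.const true)).eval y && ev2 p y G))) →
      1 ≤ dataLeaves Φ → ∀ (κ : Fm V → Fm V) (c : ℕ), PC κ c →
        ∃ T : Mx Z V, T.data = dataLeaves Φ ∧ T.tot ≤ 2 * (c + matLeaves Φ) ∧
        T.parts + 2 ≤ 4 * dataLeaves Φ ∧ ∀ p y, T.eval p y =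
          ((κ (.const false)).eval y || ((κ (.const true)).eval y && ev2 p y Φ)) := by
    intro c₀ Φ F G hd hm he ihF ihG h1 κ c hκ
    -- a pure child
    have one : ∀ F G : Fm (Z ⊕ V), dataLeaves Φ = dataLeaves F + dataLeaves G →
        matLeaves Φ = matLeaves F + matLeaves G →
        (∀ p y, ev2 p y Φ = gt c₀ (ev2 p y F) (ev2 p y G)) → dataLeaves F = 0 →
        (1 ≤ dataLeaves G → ∀ (κ : Fm V → Fm V) (c : ℕ), PC κ c →
        ∃ T : Mx Z V, T.data = dataLeaves G ∧ T.tot ≤ 2 * (c + matLeaves G) ∧
        T.parts + 2 ≤ 4 * dataLeaves G ∧ ∀ p y, T.eval p y =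
          ((κ (.const false)).eval y || ((κ (.const true)).eval y && ev2 p y G))) →
        ∃ T : Mx Z V, T.data = dataLeaves Φ ∧ T.tot ≤ 2 * (c + matLeaves Φ) ∧
        T.parts + 2 ≤ 4 * dataLeaves Φ ∧ ∀ p y, T.eval p y =
          ((κ (.const false)).eval y || ((κ (.const true)).eval y && ev2 p y Φ)) := by
      intro F G hd hm he hF ihG
      obtain ⟨P, hP1, hP2⟩ := pure_of_data_zero F hF
      cases c₀ with
      | false =>
        obtain ⟨T, t1, t2, t3, t4⟩ := ihG (by omega) (fun u => κ (.or P u)) _ (hκ.orF P)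
        refine ⟨T, by omega, by omega, by omega, fun p y => ?_⟩
        rw [t4, hκ.ev (.or P (.const false)), hκ.ev (.or P (.const true)), he, ← hP2 p y]
        simp only [Fm.eval, gt]
        generalize (κ (.const false)).eval y = a
        generalize (κ (.const true)).eval y = b
        generalize P.eval y = f
        generalize ev2 p y G = w
        cases a <;> cases b <;> cases f <;> cases w <;> rfl
      | true =>
        obtain ⟨T, t1, t2, t3, t4⟩ := ihG (by omega) (fun u => κ (.and P u)) _ (hκ.andF P)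
        refine ⟨T, by omega, by omega, by omega, fun p y => ?_⟩
        rw [t4, hκ.ev (.and P (.const false)), hκ.ev (.and P (.const true)), he, ← hP2 p y]
        simp only [Fm.eval, gt]
        generalize (κ (.const false)).eval y = a
        generalize (κ (.const true)).eval y = b
        generalize P.eval y = f
        generalize ev2 p y G = w
        cases a <;> cases b <;> cases f <;> cases w <;> rfl
    rcases Nat.eq_zero_or_pos (dataLeaves F) with hF | hF
    · exact one F G hd hm he hF ihG
    rcases Nat.eq_zero_or_pos (dataLeaves G) with hG | hG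
    · exact one G F (by omega) (by omega) (fun p y => by rw [he, gt_comm]) hG ihF
    obtain ⟨TF, a1, a2, a3, a4⟩ := ihF hF _ _ PC.id
    obtain ⟨TG, b1, b2, b3, b4⟩ := ihG hG _ _ PC.id
    refine ⟨Mx.wrap (κ (.const false)) (κ (.const true)) (.gate c₀ TF TG), ?_, ?_, ?_, ?_⟩
    · simp only [Mx.wrap, Mx.data]
      omega
    · have e1 := hκ.size (.const false)
      have e2 := hκ.size (.const true)
      simp only [Mx.wrap, Mx.tot]
      simp only [Fm.size] at e1 e2
      omega
    · simp only [Mx.wrap, Mx.parts]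
      omega
    · intro p y
      rw [Mx.eval_wrap, he]
      simp only [Mx.eval, a4, b4]
      simp [Fm.eval]
  induction Φ with
  | const b => intro h; simp [dataLeaves] at h
  | lit v b =>
    intro h κ c hκ
    cases v with
    | inl z =>
      refine ⟨Mx.wrap (κ (.const false)) (κ (.const true)) (.dat z b), ?_, ?_, ?_, ?_⟩
      · simp [Mx.wrap, Mx.data, dataLeaves]
      · have e1 := hκ.size (.const false)
        have e2 := hκ.size (.const true)
        simp only [Mx.wrap, Mx.tot, matLeaves]
        simp only [Fm.size] at e1 e2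
        omega
      · simp [Mx.wrap, Mx.parts, dataLeaves]
      · intro p y
        rw [Mx.eval_wrap]
        rfl
    | inr v => simp [dataLeaves] at h
  | and F G ihF ihG =>
    exact gate true (.and F G) F G rfl rfl (fun _ _ => rfl) ihF ihG
  | or F G ihF ihG =>
    exact gate false (.or F G) F G rfl rfl (fun _ _ => rfl) ihF ihG

section

variable [DecidableEq V] {A S : Finset V} {wt wt' : V → ℝ} {w₁ w₁' : ℝ}

/-- One step for a formula with pure parts. -/
theorem Stp.mx (h : Stp A S wt wt' w₁ w₁') (T : Mx Z V) (hT : T.In A) :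
    ∃ T' : V → Bool → Mx Z V,
      (∀ x ∈ S, ∀ b p y, (T' x b).eval p y = T.eval p (Function.update y x b)) ∧
      (∀ x ∈ S, ∀ b, (T' x b).In (A.erase x)) ∧ (∀ x b, (T' x b).data = T.data) ∧
      ∑ x ∈ S, ((T' x false).pot wt' + (T' x true).pot wt') ≤ 2 * (S.card : ℝ) * T.pot wt := by
  induction T with
  | pure F =>
    obtain ⟨F', h1, h2, h3⟩ := h.part F hT
    exact ⟨fun x b => .pure (F' x b), fun x hx b p y => h1 x hx b y, fun x hx b => h2 x hx b,
      fun _ _ => rfl, h3⟩
  | dat z b =>
    refine ⟨fun _ _ => .dat z b, fun _ _ _ _ _ => rfl, fun _ _ _ => trivial, fun _ _ => rfl, ?_⟩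
    simp [Mx.pot]
  | gate c F G ihF ihG =>
    obtain ⟨F', a1, a2, a3, a4⟩ := ihF hT.1
    obtain ⟨G', b1, b2, b3, b4⟩ := ihG hT.2
    refine ⟨fun x b => .gate c (F' x b) (G' x b), fun x hx b p y => ?_,
      fun x hx b => ⟨a2 x hx b, b2 x hx b⟩, fun x b => ?_, ?_⟩
    · simp only [Mx.eval, a1 x hx, b1 x hx]
    · simp only [Mx.data, a3, b3]
    · simp only [Mx.pot]
      have e : ∑ x ∈ S, ((F' x false).pot wt' + (G' x false).pot wt' +
          ((F' x true).pot wt' + (G' x true).pot wt')) =
          ∑ x ∈ S, ((F' x false).pot wt' + (F' x true).pot wt') +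
          ∑ x ∈ S, ((G' x false).pot wt' + (G' x true).pot wt') := by
        rw [← sum_add_distrib]
        refine sum_congr rfl fun x _ => by ring
      rw [e]
      linarith

/-- A good choice of the variable and of its value. -/
theorem Stp.choice (h : Stp A S wt wt' w₁ w₁') (hS : S.Nonempty) (T : Mx Z V) (hT : T.In A) :
    ∃ x ∈ S, ∃ (b : Bool) (T' : Mx Z V), (∀ p y, T'.eval p y = T.eval p (Function.update y x b)) ∧
      T'.In (A.erase x) ∧ T'.data = T.data ∧ T'.pot wt' ≤ T.pot wt := by
  obtain ⟨T', h1, h2, h3, h4⟩ := h.mx T hT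
  by_contra hne
  push Not at hne
  have h5 : ∀ x ∈ S, 2 * T.pot wt < (T' x false).pot wt' + (T' x true).pot wt' := by
    intro x hx
    have a1 := hne x hx false (T' x false) (fun p y => h1 x hx false p y) (h2 x hx _) (h3 _ _)
    have a2 := hne x hx true (T' x true) (fun p y => h1 x hx true p y) (h2 x hx _) (h3 _ _)
    linarith
  have h6 := sum_lt_sum_of_nonempty hS h5
  rw [sum_const, nsmul_eq_mul] at h6
  linarith

end

end Pool.Agent.H.MP_027d00_lc.Sel
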