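import Pool.Agent.H.MP_027d00_lc.mux.Final

/-!
# A normal form of formulas, and the effect of fixing one variable
-/

set_option autoImplicit false

open Finset

namespace Pool.Agent.H.MP_027d00_lc.Sel

open Pool.Agent.H.MP_027d00_lc.UComp

variable {V : Type}

/-- The multiset of the variables of the leaves. -/
def lv : Fm V → Multiset V
  | .const _ => 0
  | .lit v _ => {v}
  | .and F G => lv F + lv G
  | .or F G => lv F + lv G

theorem card_lv (F : Fm V) : (lv F).card = F.size := by
  induction F with
  | const b => rfl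
  | lit v b => rfl
  | and F G ihF ihG => simp only [lv, Fm.size, Multiset.card_add, ihF, ihG]
  | or F G ihF ihG => simp only [lv, Fm.size, Multiset.card_add, ihF, ihG]

/-- `h` has a formula with leaves from `L`. -/
def Rp (L : Multiset V) (h : (V → Bool) → Bool) : Prop :=
  ∃ F : Fm V, lv F ≤ L ∧ ∀ x, F.eval x = h x

/-- Gates: AND for `true`, OR for `false`. -/
def gt (c : Bool) (a b : Bool) : Bool := bif c then a && b else a || b

theorem Rp.gate {L L' : Multiset V} {h h' : (V → Bool) → Bool} (c : Bool) (H : Rp L h)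
    (H' : Rp L' h') : Rp (L + L') (fun x => gt c (h x) (h' x)) := by
  obtain ⟨F, h1, h2⟩ := H
  obtain ⟨G, h3, h4⟩ := H'
  cases c
  · exact ⟨.or F G, add_le_add h1 h3, fun x => by simp [Fm.eval, gt, h2, h4]⟩
  · exact ⟨.and F G, add_le_add h1 h3, fun x => by simp [Fm.eval, gt, h2, h4]⟩

theorem Rp.const (L : Multiset V) (b : Bool) : Rp L (fun _ => b) :=
  ⟨.const b, Multiset.zero_le _, fun _ => rfl⟩

/-- Formulas without constants. -/
inductive Tm (V : Type) : Type
  | lit (v : V) (b : Bool)
  | gate (c : Bool) (F G : Tm V)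

/-- The value. -/
def Tm.eval (x : V → Bool) : Tm V → Bool
  | .lit v b => x v == b
  | .gate c F G => gt c (F.eval x) (G.eval x)

/-- The multiset of the variables of the leaves. -/
def Tm.lv : Tm V → Multiset V
  | .lit v _ => {v}
  | .gate _ F G => F.lv + G.lv

theorem Tm.card_pos (T : Tm V) : 1 ≤ T.lv.card := by
  induction T with
  | lit v b => simp [Tm.lv]
  | gate c F G ihF ihG =>
    simp only [Tm.lv, Multiset.card_add]
    omega

theorem Tm.rp (T : Tm V) : Rp T.lv (fun x => T.eval x) := by
  induction T with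
  | lit v b => exact ⟨.lit v b, le_rfl, fun _ => rfl⟩
  | gate c F G ihF ihG => exact ihF.gate c ihG

/-- The sibling of a leaf does not contain the variable of the leaf. -/
def Tm.Nice : Tm V → Prop
  | .lit _ _ => True
  | .gate _ F G => F.Nice ∧ G.Nice ∧ (∀ x e, F = .lit x e → x ∉ G.lv) ∧
      (∀ x e, G = .lit x e → x ∉ F.lv)

/-- `h` is constant or has a nice formula with leaves from `L`. -/
def NF (L : Multiset V) (h : (V → Bool) → Bool) : Prop :=
  (∃ b, ∀ x, h x = b) ∨ ∃ T : Tm V, T.Nice ∧ T.lv ≤ L ∧ ∀ x, T.eval x = h x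

theorem NF.mono {L L' : Multiset V} {h : (V → Bool) → Bool} (H : NF L h) (hL : L ≤ L') :
    NF L' h := by
  rcases H with ⟨b, hb⟩ | ⟨T, h1, h2, h3⟩
  · exact Or.inl ⟨b, hb⟩
  · exact Or.inr ⟨T, h1, h2.trans hL, h3⟩

theorem gt_comm (c a b : Bool) : gt c a b = gt c b a := by
  cases c <;> cases a <;> cases b <;> rfl

/-- The weight of a multiset. -/
def ws (wt : V → ℝ) (L : Multiset V) : ℝ := (L.map wt).sum

theorem ws_add (wt : V → ℝ) (L L' : Multiset V) : ws wt (L + L') = ws wt L + ws wt L' := by
  simp [ws]

theorem ws_zero (wt : V → ℝ) : ws wt 0 = 0 := by simp [ws]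

theorem ws_singleton (wt : V → ℝ) (v : V) : ws wt {v} = wt v := by simp [ws]

theorem ws_nonneg {wt : V → ℝ} {L : Multiset V} (h : ∀ v ∈ L, 0 ≤ wt v) : 0 ≤ ws wt L := by
  unfold ws
  refine Multiset.sum_nonneg fun a ha => ?_
  obtain ⟨v, hv, rfl⟩ := Multiset.mem_map.1 ha
  exact h v hv

theorem ws_le {wt : V → ℝ} {L L' : Multiset V} (hL : L ≤ L') (h : ∀ v ∈ L', 0 ≤ wt v) :
    ws wt L ≤ ws wt L' := by
  obtain ⟨D, rfl⟩ := Multiset.le_iff_exists_add.1 hL
  rw [ws_add]
  have := ws_nonneg (wt := wt) (L := D) (fun v hv => h v (Multiset.mem_add.2 (Or.inr hv)))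
  linarith

theorem ws_ge {wt : V → ℝ} {L : Multiset V} {w₀ : ℝ} (h0 : 0 ≤ w₀) (h : ∀ v ∈ L, w₀ ≤ wt v)
    (hL : 1 ≤ L.card) : w₀ ≤ ws wt L := by
  obtain ⟨v, hv⟩ := Multiset.card_pos_iff_exists_mem.1 hL
  obtain ⟨D, rfl⟩ := Multiset.exists_cons_of_mem hv
  have h1 : ws wt (v ::ₘ D) = wt v + ws wt D := by simp [ws]
  rw [h1]
  have h2 := ws_nonneg (wt := wt) (L := D) (fun u hu => h0.trans (h u (Multiset.mem_cons_of_mem hu)))
  have h3 := h v hv
  linarith

section

variable [DecidableEq V]

theorem Rp.sub {L : Multiset V} {h : (V → Bool) → Bool} (H : Rp L h) (x : V) (b : Bool) :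
    Rp (L.filter (fun v => v ≠ x)) (fun y => h (Function.update y x b)) := by
  obtain ⟨F, h1, h2⟩ := H
  have key : ∀ F : Fm V, ∃ F' : Fm V, lv F' ≤ (lv F).filter (fun v => v ≠ x) ∧
      ∀ y, F'.eval y = F.eval (Function.update y x b) := by
    intro F
    induction F with
    | const c => exact ⟨.const c, Multiset.zero_le _, fun _ => rfl⟩
    | lit v c =>
      by_cases hv : v = x
      · subst hv
        exact ⟨.const (b == c), Multiset.zero_le _, fun y => by simp [Fm.eval]⟩
      · refine ⟨.lit v c, ?_, fun y => by simp [Fm.eval, hv]⟩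
        simp only [lv]
        rw [Multiset.filter_singleton, if_pos hv]
    | and F G ihF ihG =>
      obtain ⟨F', h1, h2⟩ := ihF
      obtain ⟨G', h3, h4⟩ := ihG
      refine ⟨.and F' G', ?_, fun y => by simp [Fm.eval, h2, h4]⟩
      simp only [lv, Multiset.filter_add]
      exact add_le_add h1 h3
    | or F G ihF ihG =>
      obtain ⟨F', h1, h2⟩ := ihF
      obtain ⟨G', h3, h4⟩ := ihG
      refine ⟨.or F' G', ?_, fun y => by simp [Fm.eval, h2, h4]⟩
      simp only [lv, Multiset.filter_add]
      exact add_le_add h1 h3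
  obtain ⟨F', h3, h4⟩ := key F
  exact ⟨F', h3.trans (Multiset.filter_le_filter _ h1), fun y => by rw [h4, h2]⟩

theorem card_filter_lt {L : Multiset V} {x : V} (hx : x ∈ L) :
    (L.filter (fun v => v ≠ x)).card < L.card := by
  rcases lt_or_ge (L.filter (fun v => v ≠ x)).card L.card with h | h
  · exact h
  · exfalso
    have h1 := Multiset.eq_of_le_of_card_le (Multiset.filter_le (fun v => v ≠ x) L) h
    rw [← h1, Multiset.mem_filter] at hx
    exact hx.2 rfl

theorem NF.combL {N : ℕ} (IH : ∀ (L : Multiset V) (h : (V → Bool) → Bool), L.card < N →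
    Rp L h → NF L h) (c : Bool) {x : V} (e : Bool) {T : Tm V} (hx : x ∈ T.lv)
    (hN : ({x} + T.lv).card ≤ N) :
    NF ({x} + T.lv) (fun y => gt c (y x == e) (T.eval y)) := by
  have h1 : Rp ({x} + T.lv.filter (fun v => v ≠ x))
      (fun y => gt c (y x == e) (T.eval (Function.update y x (e == c)))) :=
    Rp.gate c ⟨.lit x e, le_rfl, fun _ => rfl⟩ (T.rp.sub x (e == c))
  have h2 : (fun y => gt c (y x == e) (T.eval (Function.update y x (e == c)))) =
      (fun y => gt c (y x == e) (T.eval y)) := by
    funext y
    by_cases hy : y x = (e == c)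
    · rw [← hy, Function.update_eq_self]
    · have h3 : (y x == e) = !c := by
        revert hy
        cases y x <;> cases e <;> cases c <;> simp
      rw [h3]
      cases c <;> simp [gt]
  rw [h2] at h1
  have h3 := card_filter_lt hx
  refine (IH _ _ ?_ h1).mono ?_
  · rw [Multiset.card_add] at hN ⊢
    omega
  · exact add_le_add le_rfl (Multiset.filter_le _ _)

theorem NF.comb {N : ℕ} (IH : ∀ (L : Multiset V) (h : (V → Bool) → Bool), L.card < N →
    Rp L h → NF L h) (c : Bool) {T₁ T₂ : Tm V} (h₁ : T₁.Nice) (h₂ : T₂.Nice)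
    (hN : (T₁.lv + T₂.lv).card ≤ N) :
    NF (T₁.lv + T₂.lv) (fun y => gt c (T₁.eval y) (T₂.eval y)) := by
  by_cases c1 : ∃ x e, T₁ = .lit x e ∧ x ∈ T₂.lv
  · obtain ⟨x, e, rfl, hx⟩ := c1
    exact NF.combL IH c e hx hN
  by_cases c2 : ∃ x e, T₂ = .lit x e ∧ x ∈ T₁.lv
  · obtain ⟨x, e, rfl, hx⟩ := c2
    have := NF.combL IH c e hx (by rw [add_comm]; exact hN)
    rw [add_comm] at this
    have e1 : (fun y => gt c (y x == e) (T₁.eval y)) =
        (fun y => gt c (T₁.eval y) ((Tm.lit x e).eval y)) := by
      funext y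
      rw [gt_comm]
      rfl
    rw [e1] at this
    exact this
  · push Not at c1 c2
    exact Or.inr ⟨.gate c T₁ T₂, ⟨h₁, h₂, fun x e h => c1 x e h, fun x e h => c2 x e h⟩, le_rfl,
      fun _ => rfl⟩

theorem NF.gate {N : ℕ} (IH : ∀ (L : Multiset V) (h : (V → Bool) → Bool), L.card < N →
    Rp L h → NF L h) (c : Bool) {L L' : Multiset V} {h h' : (V → Bool) → Bool}
    (H : NF L h) (H' : NF L' h') (hN : (L + L').card ≤ N) :
    NF (L + L') (fun y => gt c (h y) (h' y)) := by
  have key : ∀ {L L' : Multiset V} {h h' : (V → Bool) → Bool} (b : Bool), (∀ y, h y = b) →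
      NF L' h' → NF (L + L') (fun y => gt c (h y) (h' y)) := by
    intro L L' h h' b hb H'
    by_cases hbc : b = c
    · subst hbc
      have : (fun y => gt b (h y) (h' y)) = h' := by
        funext y
        rw [hb]
        cases b <;> simp [gt]
      rw [this]
      exact H'.mono (Multiset.le_add_left _ _)
    · refine Or.inl ⟨!c, fun y => ?_⟩
      simp only [hb]
      revert hbc
      cases b <;> cases c <;> simp [gt]
  rcases H with ⟨b, hb⟩ | ⟨T₁, a1, a2, a3⟩
  · exact key b hb H'
  · rcases H' with ⟨b, hb⟩ | ⟨T₂, b1, b2, b3⟩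
    · have := key (L := L') (L' := L) (h' := h) b hb (Or.inr ⟨T₁, a1, a2, a3⟩)
      rw [add_comm] at this
      have e : (fun y => gt c (h' y) (h y)) = (fun y => gt c (h y) (h' y)) := by
        funext y
        exact gt_comm _ _ _
      rw [e] at this
      exact this
    · have h1 : (T₁.lv + T₂.lv).card ≤ N :=
        (Multiset.card_le_card (add_le_add a2 b2)).trans hN
      have := NF.comb IH c a1 b1 h1
      simp only [a3, b3] at this
      exact this.mono (add_le_add a2 b2)

theorem nf_aux (N : ℕ) : ∀ (L : Multiset V) (h : (V → Bool) → Bool), L.card < N →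
    Rp L h → NF L h := by
  induction N with
  | zero => intro L h hL; omega
  | succ N IH =>
    have key : ∀ F : Fm V, (lv F).card ≤ N → NF (lv F) (fun y => F.eval y) := by
      intro F
      induction F with
      | const b => intro _; exact Or.inl ⟨b, fun _ => rfl⟩
      | lit v b => intro _; exact Or.inr ⟨.lit v b, trivial, le_rfl, fun _ => rfl⟩
      | and F G ihF ihG =>
        intro hN
        have hc : (lv F).card + (lv G).card ≤ N := by
          have := hN
          simp only [lv, Multiset.card_add] at this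
          exact this
        exact NF.gate IH true (ihF (by omega)) (ihG (by omega)) hN
      | or F G ihF ihG =>
        intro hN
        have hc : (lv F).card + (lv G).card ≤ N := by
          have := hN
          simp only [lv, Multiset.card_add] at this
          exact this
        exact NF.gate IH false (ihF (by omega)) (ihG (by omega)) hN
    intro L h hL H
    obtain ⟨F, h1, h2⟩ := H
    have h3 := Multiset.card_le_card h1
    have h4 := (key F (by omega)).mono h1
    simp only [h2] at h4
    exact h4

/-- Every function has a normal form. -/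
theorem nf {L : Multiset V} {h : (V → Bool) → Bool} (H : Rp L h) : NF L h :=
  nf_aux (L.card + 1) L h (Nat.lt_succ_self _) H

/-- The effect of fixing the variable `x` in a nice formula. -/
theorem step {wt : V → ℝ} {w₀ : ℝ} (h0 : 0 ≤ w₀) (x : V) (T : Tm V) (hT : T.Nice)
    (hw : ∀ v ∈ T.lv, w₀ ≤ wt v) : ∃ L : Bool → Multiset V,
    (∀ b, Rp (L b) (fun y => T.eval (Function.update y x b))) ∧
    (∀ b, x ∉ L b ∧ L b ≤ T.lv) ∧
    ((∃ e, T = .lit x e) ∨ ws wt (L false) + ws wt (L true) + w₀ * (T.lv.count x) ≤
      2 * (ws wt T.lv - wt x * (T.lv.count x))) := by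
  induction T with
  | lit v e =>
    by_cases hv : v = x
    · subst hv
      refine ⟨fun _ => 0, fun b => ⟨.const (b == e), le_rfl, fun y => ?_⟩, fun b => ⟨?_, ?_⟩,
        Or.inl ⟨e, rfl⟩⟩
      · simp [Fm.eval, Tm.eval]
      · exact Multiset.notMem_zero _
      · exact Multiset.zero_le _
    · refine ⟨fun _ => {v}, fun b => ⟨.lit v e, le_rfl, fun y => ?_⟩, fun b => ⟨?_, le_rfl⟩,
        Or.inr ?_⟩
      · simp [Fm.eval, Tm.eval, hv]
      · rw [Multiset.mem_singleton]
        exact Ne.symm hv
      · have : (Tm.lit v e).lv.count x = 0 := by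
          simp only [Tm.lv]
          rw [Multiset.count_eq_zero, Multiset.mem_singleton]
          exact Ne.symm hv
        rw [this, ws_singleton]
        simp only [Tm.lv, ws_singleton]
        push_cast
        linarith
  | gate c F G ihF ihG =>
    have hwF : ∀ v ∈ F.lv, w₀ ≤ wt v := fun v hv => hw v (by
      simp only [Tm.lv, Multiset.mem_add]; exact Or.inl hv)
    have hwG : ∀ v ∈ G.lv, w₀ ≤ wt v := fun v hv => hw v (by
      simp only [Tm.lv, Multiset.mem_add]; exact Or.inr hv)
    obtain ⟨hF, hG, hFG, hGF⟩ := hT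
    -- one child is the literal
    have one : ∀ (e : Bool) (H : Tm V), x ∉ H.lv → (∀ v ∈ H.lv, w₀ ≤ wt v) →
        ∃ L : Bool → Multiset V,
        (∀ b, Rp (L b) (fun y => gt c (b == e) (H.eval (Function.update y x b)))) ∧
        (∀ b, x ∉ L b ∧ L b ≤ H.lv) ∧ ws wt (L false) + ws wt (L true) + w₀ ≤ 2 * ws wt H.lv := by
      intro e H hx hwH
      have hrp : ∀ b, Rp H.lv (fun y => H.eval (Function.update y x b)) := by
        intro b
        obtain ⟨F', h1, h2⟩ := H.rp.sub x b
        exact ⟨F', h1.trans (Multiset.filter_le _ _), h2⟩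
      refine ⟨fun b => if (b == e) = c then H.lv else 0, fun b => ?_, fun b => ?_, ?_⟩
      · by_cases hb : (b == e) = c
        · simp only [hb, if_true]
          have : (fun y => gt c c (H.eval (Function.update y x b))) =
              (fun y => H.eval (Function.update y x b)) := by
            funext y
            cases c <;> simp [gt]
          rw [this]
          exact hrp b
        · simp only [if_neg hb]
          have hb' : (b == e) = !c := by
            revert hb
            cases (b == e) <;> cases c <;> simp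
          have : (fun y => gt c (b == e) (H.eval (Function.update y x b))) = (fun _ => !c) := by
            funext y
            rw [hb']
            cases c <;> simp [gt]
          rw [this]
          exact Rp.const _ _
      · by_cases hb : (b == e) = c
        · simp only [hb, if_true]
          exact ⟨hx, le_rfl⟩
        · simp only [if_neg hb]
          exact ⟨Multiset.notMem_zero _, Multiset.zero_le _⟩
      · have h1 := ws_ge h0 hwH H.card_pos
        cases c <;> cases e <;> simp [ws_zero] <;> linarith
    by_cases c1 : ∃ e, F = .lit x e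
    · obtain ⟨e, rfl⟩ := c1
      have hx := hFG x e rfl
      obtain ⟨L, h1, h2, h3⟩ := one e G hx hwG
      refine ⟨L, fun b => ?_, fun b => ⟨(h2 b).1, (h2 b).2.trans (Multiset.le_add_left _ _)⟩,
        Or.inr ?_⟩
      · have := h1 b
        simp only [Tm.eval, Function.update_self]
        exact this
      · have e1 : (Tm.gate c (Tm.lit x e) G).lv.count x = 1 := by
          simp only [Tm.lv, Multiset.count_add, Multiset.count_singleton_self]
          rw [Multiset.count_eq_zero.2 hx]
        rw [e1]
        simp only [Tm.lv, ws_add, ws_singleton]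
        push_cast
        linarith
    by_cases c2 : ∃ e, G = .lit x e
    · obtain ⟨e, rfl⟩ := c2
      have hx := hGF x e rfl
      obtain ⟨L, h1, h2, h3⟩ := one e F hx hwF
      refine ⟨L, fun b => ?_, fun b => ⟨(h2 b).1, (h2 b).2.trans (Multiset.le_add_right _ _)⟩,
        Or.inr ?_⟩
      · have := h1 b
        simp only [Tm.eval, Function.update_self]
        simp only [gt_comm c (b == e)] at this
        exact this
      · have e1 : (Tm.gate c F (Tm.lit x e)).lv.count x = 1 := by
          simp only [Tm.lv, Multiset.count_add, Multiset.count_singleton_self]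
          rw [Multiset.count_eq_zero.2 hx]
        rw [e1]
        simp only [Tm.lv, ws_add, ws_singleton]
        push_cast
        linarith
    · obtain ⟨L, a1, a2, a3⟩ := ihF hF hwF
      obtain ⟨L', b1, b2, b3⟩ := ihG hG hwG
      have a4 := a3.resolve_left c1
      have b4 := b3.resolve_left c2
      refine ⟨fun b => L b + L' b, fun b => (a1 b).gate c (b1 b), fun b => ⟨?_, ?_⟩, Or.inr ?_⟩
      · rw [Multiset.mem_add]
        exact fun h => h.elim (a2 b).1 (b2 b).1
      · exact add_le_add (a2 b).2 (b2 b).2
      · simp only [Tm.lv, ws_add, Multiset.count_add]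
        push_cast
        nlinarith

end

end Pool.Agent.H.MP_027d00_lc.Sel
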