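import Pool.Agent.H.MP_027d00_lc.mux.Nf

/-!
# The potential of a pure formula under fixing one random variable of a block
-/

set_option autoImplicit false

open Finset

namespace Pool.Agent.H.MP_027d00_lc.Sel

open Pool.Agent.H.MP_027d00_lc.UComp

variable {V : Type}

/-- The potential of a pure formula. -/
noncomputable def pt (wt : V → ℝ) (F : Fm V) : ℝ :=
  if (lv F).card ≤ 1 then 1 else ws wt (lv F) + 1

theorem pt_le {wt : V → ℝ} {F : Fm V} {L : Multiset V} (hF : lv F ≤ L) (h : ∀ v ∈ L, 0 ≤ wt v) :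
    pt wt F ≤ ws wt L + 1 := by
  have h1 := ws_le hF h
  have h2 := ws_nonneg h
  unfold pt
  split_ifs <;> linarith

theorem one_le_pt {wt : V → ℝ} {F : Fm V} (h : ∀ v ∈ lv F, 0 ≤ wt v) : 1 ≤ pt wt F := by
  have h2 := ws_nonneg h
  unfold pt
  split_ifs <;> linarith

theorem pt_one {wt : V → ℝ} {F : Fm V} (h : (lv F).card ≤ 1) : pt wt F = 1 := by
  unfold pt
  rw [if_pos h]

variable [DecidableEq V]

theorem sum_count (S : Finset V) (L : Multiset V) (f : V → ℝ) (hf : ∀ v ∈ L, v ∉ S → f v = 0) :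
    ws f L = ∑ x ∈ S, f x * (L.count x : ℝ) := by
  induction L using Multiset.induction_on with
  | empty => simp [ws]
  | cons a L ih =>
    have h1 : ws f (a ::ₘ L) = f a + ws f L := by simp [ws]
    rw [h1, ih fun v hv => hf v (Multiset.mem_cons_of_mem hv)]
    have h2 : ∀ x ∈ S, f x * ((a ::ₘ L).count x : ℝ) =
        f x * (L.count x : ℝ) + (if x = a then f a else 0) := by
      intro x _
      by_cases hx : x = a
      · subst hx
        simp [Multiset.count_cons_self]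
        ring
      · rw [Multiset.count_cons_of_ne hx, if_neg hx, add_zero]
    rw [sum_congr rfl h2, sum_add_distrib]
    have h3 : ∑ x ∈ S, (if x = a then f a else 0) = f a := by
      by_cases ha : a ∈ S
      · rw [sum_eq_single a]
        · simp
        · intro x _ hx
          rw [if_neg hx]
        · intro h; exact absurd ha h
      · rw [hf a (Multiset.mem_cons_self a L) ha]
        exact sum_eq_zero fun x _ => by split_ifs <;> rfl
    rw [h3]
    ring

/-- The data of one step: a block `S` of the alive variables `A`, the weights before and after. -/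
structure Stp (A S : Finset V) (wt wt' : V → ℝ) (w₁ w₁' : ℝ) : Prop where
  sub : S ⊆ A
  out : ∀ v ∈ A, v ∉ S → wt' v = wt v
  old : ∀ v ∈ S, wt v = w₁
  new : ∀ v ∈ S, wt' v = w₁'
  nn : 0 ≤ w₁
  low : ∀ v ∈ A, w₁ ≤ wt' v
  bal : 2 * ((S.card : ℝ) - 1) * w₁' ≤ (2 * (S.card : ℝ) + 1) * w₁

variable {A S : Finset V} {wt wt' : V → ℝ} {w₁ w₁' : ℝ}

theorem Stp.nn' (h : Stp A S wt wt' w₁ w₁') : ∀ v ∈ A, 0 ≤ wt' v :=
  fun v hv => h.nn.trans (h.low v hv)

theorem Stp.nn0 (h : Stp A S wt wt' w₁ w₁') : ∀ v ∈ A, 0 ≤ wt v := by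
  intro v hv
  by_cases hs : v ∈ S
  · rw [h.old v hs]; exact h.nn
  · rw [← h.out v hv hs]; exact h.nn' v hv

theorem Stp.ws (h : Stp A S wt wt' w₁ w₁') {L : Multiset V} (hL : ∀ v ∈ L, v ∈ A) :
    ws wt' L = ws wt L + (w₁' - w₁) * ∑ x ∈ S, (L.count x : ℝ) := by
  have h1 : Sel.ws wt' L = Sel.ws wt L + Sel.ws (fun v => wt' v - wt v) L := by
    unfold Sel.ws
    rw [← Multiset.sum_map_add]
    congr 1
    refine Multiset.map_congr rfl fun v _ => by ring
  rw [h1, sum_count S L (fun v => wt' v - wt v) (fun v hv hs => by rw [h.out v (hL v hv) hs]; ring),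
    mul_sum]
  congr 1
  refine sum_congr rfl fun x hx => ?_
  rw [h.old x hx, h.new x hx]

/-- One step for a pure formula. -/
theorem Stp.part (h : Stp A S wt wt' w₁ w₁') (F : Fm V) (hF : ∀ v ∈ lv F, v ∈ A) :
    ∃ F' : V → Bool → Fm V, (∀ x ∈ S, ∀ b y, (F' x b).eval y = F.eval (Function.update y x b)) ∧
      (∀ x ∈ S, ∀ b, ∀ v ∈ lv (F' x b), v ∈ A.erase x) ∧
      ∑ x ∈ S, (pt wt' (F' x false) + pt wt' (F' x true)) ≤ 2 * (S.card : ℝ) * pt wt F := by
  classical
  -- it is enough to bound the potential by `ws + 1`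
  have hpt1 : 1 ≤ pt wt F := one_le_pt fun v hv => h.nn0 v (hF v hv)
  -- formulas of potential one
  have small : (∃ T : Fm V, (lv T).card ≤ 1 ∧ lv T ≤ lv F ∧ ∀ y, T.eval y = F.eval y) →
      ∃ F' : V → Bool → Fm V, (∀ x ∈ S, ∀ b y, (F' x b).eval y = F.eval (Function.update y x b)) ∧
      (∀ x ∈ S, ∀ b, ∀ v ∈ lv (F' x b), v ∈ A.erase x) ∧
      ∑ x ∈ S, (pt wt' (F' x false) + pt wt' (F' x true)) ≤ 2 * (S.card : ℝ) * pt wt F := by
    rintro ⟨T, h1, h2, h3⟩
    have h4 : ∀ x : V, ∀ b : Bool, ∃ F' : Fm V, lv F' ≤ (lv T).filter (fun v => v ≠ x) ∧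
        ∀ y, F'.eval y = T.eval (Function.update y x b) := by
      intro x b
      have : Rp (lv T) (fun y => T.eval y) := ⟨T, le_rfl, fun _ => rfl⟩
      exact this.sub x b
    choose F' h5 h6 using h4
    refine ⟨F', fun x _ b y => by rw [h6, h3], fun x _ b v hv => ?_, ?_⟩
    · have h7 := Multiset.mem_of_le (h5 x b) hv
      rw [Multiset.mem_filter] at h7
      exact mem_erase.2 ⟨h7.2, hF v (Multiset.mem_of_le h2 h7.1)⟩
    · have h7 : ∀ x ∈ S, pt wt' (F' x false) + pt wt' (F' x true) = 2 := by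
        intro x _
        have h8 : ∀ b, (lv (F' x b)).card ≤ 1 := fun b =>
          ((Multiset.card_le_card (h5 x b)).trans
            (Multiset.card_le_card (Multiset.filter_le _ _))).trans h1
        rw [pt_one (h8 _), pt_one (h8 _)]
        norm_num
      rw [sum_congr rfl h7, sum_const, nsmul_eq_mul]
      have : (0 : ℝ) ≤ S.card := Nat.cast_nonneg _
      nlinarith
  by_cases hc : (lv F).card ≤ 1
  · exact small ⟨F, hc, le_rfl, fun _ => rfl⟩
  rcases nf (⟨F, le_rfl, fun _ => rfl⟩ : Rp (lv F) (fun y => F.eval y)) with ⟨b, hb⟩ | ⟨T, t1, t2, t3⟩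
  · exact small ⟨.const b, by simp [lv], Multiset.zero_le _, fun y => (hb y).symm⟩
  by_cases hT : ∃ x e, T = .lit x e
  · obtain ⟨x, e, rfl⟩ := hT
    exact small ⟨.lit x e, by simp [lv], t2, fun y => t3 y⟩
  push Not at hT
  have hTA : ∀ v ∈ T.lv, v ∈ A := fun v hv => hF v (Multiset.mem_of_le t2 hv)
  have h1 : ∀ x : V, ∃ L : Bool → Multiset V,
      (∀ b, Rp (L b) (fun y => T.eval (Function.update y x b))) ∧
      (∀ b, x ∉ L b ∧ L b ≤ T.lv) ∧
      Sel.ws wt' (L false) + Sel.ws wt' (L true) + w₁ * (T.lv.count x) ≤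
      2 * (Sel.ws wt' T.lv - wt' x * (T.lv.count x)) := by
    intro x
    obtain ⟨L, a1, a2, a3⟩ := step h.nn x T t1 (fun v hv => h.low v (hTA v hv))
    exact ⟨L, a1, a2, a3.resolve_left (by rintro ⟨e, he⟩; exact hT x e he)⟩
  choose L a1 a2 a3 using h1
  choose F' b1 b2 using a1
  refine ⟨F', fun x _ b y => by rw [b2]; exact t3 _, fun x _ b v hv => ?_, ?_⟩
  · have h7 := Multiset.mem_of_le (b1 x b) hv
    refine mem_erase.2 ⟨?_, hTA v (Multiset.mem_of_le (a2 x b).2 h7)⟩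
    rintro rfl
    exact (a2 v b).1 h7
  · have h2 : ∀ x ∈ S, pt wt' (F' x false) + pt wt' (F' x true) ≤
        2 * (Sel.ws wt' T.lv + 1) - (2 * w₁' + w₁) * (T.lv.count x : ℝ) := by
      intro x hx
      have h3 : ∀ b, pt wt' (F' x b) ≤ Sel.ws wt' (L x b) + 1 := fun b =>
        pt_le (b1 x b) fun v hv => h.nn' v (hTA v (Multiset.mem_of_le (a2 x b).2 hv))
      have h4 := a3 x
      rw [h.new x hx] at h4
      have h5 := h3 false
      have h6 := h3 true
      linarith
    refine (sum_le_sum h2).trans ?_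
    rw [sum_sub_distrib, sum_const, nsmul_eq_mul, h.ws hTA, ← mul_sum]
    set l : ℝ := ∑ x ∈ S, (T.lv.count x : ℝ) with hl
    have hl0 : 0 ≤ l := sum_nonneg fun _ _ => Nat.cast_nonneg _
    have h3 : pt wt F = Sel.ws wt (lv F) + 1 := by
      unfold pt
      rw [if_neg hc]
    have h4 : Sel.ws wt T.lv ≤ Sel.ws wt (lv F) := ws_le t2 fun v hv => h.nn0 v (hF v hv)
    have h5 : (0 : ℝ) ≤ S.card := Nat.cast_nonneg _
    have h6 := mul_le_mul_of_nonneg_right h.bal hl0
    have h7 : 2 * (S.card : ℝ) * Sel.ws wt T.lv ≤ 2 * (S.card : ℝ) * Sel.ws wt (lv F) :=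
      mul_le_mul_of_nonneg_left h4 (by positivity)
    rw [h3]
    set s : ℝ := (S.card : ℝ) with hs
    set a : ℝ := Sel.ws wt T.lv with ha
    set b : ℝ := Sel.ws wt (lv F) with hb
    calc s * (2 * (a + (w₁' - w₁) * l + 1)) - (2 * w₁' + w₁) * l
        = 2 * s * a + 2 * s + (2 * (s - 1) * w₁' * l - (2 * s + 1) * w₁ * l) := by ring
      _ ≤ 2 * s * b + 2 * s + 0 := by linarith
      _ = 2 * s * (b + 1) := by ring

end Pool.Agent.H.MP_027d00_lc.Sel
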